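import Pool.Agent.U637.OP.P1
import Pool.Agent.R479.NF.Sw5

/-!
# Local solubility of bounded level for systems: the count for the `p`-adic numbers
-/

set_option autoImplicit false
set_option linter.unusedVariables false

namespace Pool.Agent.U637.OP

open Finset Polynomial Filter Topology
open Pool.Agent.TH204.HP
open Pool.Agent.Y714.RC (PP)

/-- classes of some of the coordinates in a box -/
lemma count_cls {s : ℕ} (M : ℕ) (hM : 0 < M) (H : Fin s → ℕ) (J : Finset (Fin s)) (ρ : Fin s → ℤ) :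
    (#((Fintype.piFinset fun j : Fin s => Icc (-(H j : ℤ)) (H j)).filter
      (fun k => ∀ j ∈ J, k j % (M : ℤ) = ρ j % M)) : ℝ) * (M : ℝ) ^ #J ≤ ∏ j, (2 * (H j : ℝ) + 1 + M) := by
  classical
  have hMr : (0 : ℝ) < M := by exact_mod_cast hM
  have h1 : (Fintype.piFinset fun j : Fin s => Icc (-(H j : ℤ)) (H j)).filter (fun k => ∀ j ∈ J, k j % (M : ℤ) = ρ j % M) ⊆
      Fintype.piFinset fun j : Fin s => if j ∈ J then (Icc (-(H j : ℤ)) (H j)).filter (fun x => x % (M : ℤ) = ρ j % M)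
        else Icc (-(H j : ℤ)) (H j) := by
    intro k hk
    rw [mem_filter, Fintype.mem_piFinset] at hk
    rw [Fintype.mem_piFinset]
    intro j
    by_cases hj : j ∈ J
    · rw [if_pos hj, mem_filter]
      exact ⟨hk.1 j, hk.2 j hj⟩
    · rw [if_neg hj]
      exact hk.1 j
  have h2 : (M : ℝ) ^ #J = ∏ j : Fin s, (if j ∈ J then (M : ℝ) else 1) := by
    rw [prod_ite_mem, univ_inter, prod_const]
  calc (#((Fintype.piFinset fun j : Fin s => Icc (-(H j : ℤ)) (H j)).filter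
      (fun k => ∀ j ∈ J, k j % (M : ℤ) = ρ j % M)) : ℝ) * (M : ℝ) ^ #J
      ≤ (#(Fintype.piFinset fun j : Fin s => if j ∈ J then (Icc (-(H j : ℤ)) (H j)).filter (fun x => x % (M : ℤ) = ρ j % M)
        else Icc (-(H j : ℤ)) (H j)) : ℝ) * (M : ℝ) ^ #J := by
        apply mul_le_mul_of_nonneg_right _ (by positivity)
        exact_mod_cast card_le_card h1
    _ = ∏ j, ((#(if j ∈ J then (Icc (-(H j : ℤ)) (H j)).filter (fun x => x % (M : ℤ) = ρ j % M)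
        else Icc (-(H j : ℤ)) (H j)) : ℝ) * (if j ∈ J then (M : ℝ) else 1)) := by
        rw [Fintype.card_piFinset, h2, prod_mul_distrib]
        push_cast
        rfl
    _ ≤ _ := by
        apply Finset.prod_le_prod
        · intro j _
          split_ifs <;> positivity
        · intro j _
          by_cases hj : j ∈ J
          · rw [if_pos hj, if_pos hj]
            exact Pool.Agent.Y714.RC.card_class M hM (H j) (ρ j)
          · rw [if_neg hj, if_neg hj, mul_one, Int.card_Icc]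
            have e : (((H j : ℤ) + 1 - -(H j : ℤ)).toNat : ℝ) = 2 * (H j : ℝ) + 1 := by
              have h3 : (((H j : ℤ) + 1 - -(H j : ℤ)).toNat : ℤ) = 2 * (H j : ℤ) + 1 := by
                rw [Int.toNat_of_nonneg (by omega)]
                ring
              exact_mod_cast h3
            rw [e]
            linarith

section padic

variable {p : ℕ} [hp : Fact p.Prime] {s : ℕ}

lemma lipB (f : ℤ[X]) (N : ℕ) (x y : ℚ_[p]) (hx : ‖x‖ ≤ (p : ℝ) ^ N) (hy : ‖y‖ ≤ (p : ℝ) ^ N) :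
    ‖aeval x f - aeval y f‖ ≤ (p : ℝ) ^ (2 * f.natDegree * N) * ‖x - y‖ := by
  have hppos : (0 : ℝ) < p := p_pos
  have hp1 : (1 : ℝ) < p := one_lt_p
  obtain ⟨D, hD⟩ : ∃ D : ℕ, D = p ^ N := ⟨_, rfl⟩
  have hD0 : D ≠ 0 := by rw [hD]; exact pow_ne_zero _ hp.out.ne_zero
  have hDn : ‖(D : ℚ_[p])‖ = ((p : ℝ) ^ N)⁻¹ := by
    rw [hD]
    push_cast
    rw [norm_pow, Padic.norm_p, inv_pow]
  have hle : ∀ w : ℚ_[p], ‖w‖ ≤ (p : ℝ) ^ N → ‖(D : ℚ_[p]) * w‖ ≤ 1 := by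
    intro w hw
    rw [norm_mul, hDn]
    calc ((p : ℝ) ^ N)⁻¹ * ‖w‖ ≤ ((p : ℝ) ^ N)⁻¹ * (p : ℝ) ^ N :=
          mul_le_mul_of_nonneg_left hw (by positivity)
      _ = 1 := inv_mul_cancel₀ (by positivity)
  have h1 := lip (GG f D) _ _ (hle x hx) (hle y hy)
  rw [GG_aeval f D hD0, GG_aeval f D hD0, ← mul_sub, ← mul_sub, norm_mul, norm_mul, norm_pow, hDn] at h1
  have h3 : ‖aeval x f - aeval y f‖ = (p : ℝ) ^ (2 * f.natDegree * N) * ((((p : ℝ) ^ N)⁻¹) ^ (2 * f.natDegree) * ‖aeval x f - aeval y f‖) := by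
    rw [inv_pow, ← pow_mul, ← mul_assoc, mul_comm N, mul_inv_cancel₀ (by positivity), one_mul]
  rw [h3]
  apply mul_le_mul_of_nonneg_left _ (by positivity)
  refine h1.trans ?_
  apply mul_le_of_le_one_left (norm_nonneg _)
  exact inv_le_one_of_one_le₀ (one_le_pow₀ hp1.le)

/-- a grid in a ball -/
lemma grid (N1 Q : ℕ) (t : ℚ_[p]) (ht : ‖t‖ ≤ (p : ℝ) ^ N1) :
    ∃ a : ℕ, a < p ^ Q ∧ ‖t - (a : ℚ_[p]) / (p : ℚ_[p]) ^ N1‖ ≤ (p : ℝ) ^ N1 * ((p : ℝ) ^ Q)⁻¹ := by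
  have hppos : (0 : ℝ) < p := p_pos
  have hpq : (p : ℚ_[p]) ≠ 0 := by exact_mod_cast hp.out.ne_zero
  have hu : ‖(p : ℚ_[p]) ^ N1 * t‖ ≤ 1 := by
    rw [norm_mul, norm_pow, Padic.norm_p, inv_pow]
    calc ((p : ℝ) ^ N1)⁻¹ * ‖t‖ ≤ ((p : ℝ) ^ N1)⁻¹ * (p : ℝ) ^ N1 := mul_le_mul_of_nonneg_left ht (by positivity)
      _ = 1 := inv_mul_cancel₀ (by positivity)
  obtain ⟨u, hu'⟩ : ∃ u : ℤ_[p], (u : ℚ_[p]) = (p : ℚ_[p]) ^ N1 * t := ⟨⟨_, hu⟩, rfl⟩
  refine ⟨u.appr Q, u.appr_lt Q, ?_⟩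
  have h1 := PadicInt.appr_spec Q u
  have h2 : ‖u - (u.appr Q : ℤ_[p])‖ ≤ (p : ℝ) ^ (-(Q : ℤ)) := (PadicInt.norm_le_pow_iff_mem_span_pow _ Q).2 h1
  have h3 : ‖(p : ℚ_[p]) ^ N1 * t - (u.appr Q : ℚ_[p])‖ ≤ ((p : ℝ) ^ Q)⁻¹ := by
    rw [PadicInt.norm_def] at h2
    push_cast at h2
    rw [hu', zpow_neg, zpow_natCast] at h2
    exact h2
  have e : t - (u.appr Q : ℚ_[p]) / (p : ℚ_[p]) ^ N1 = ((p : ℚ_[p]) ^ N1)⁻¹ * ((p : ℚ_[p]) ^ N1 * t - (u.appr Q : ℚ_[p])) := by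
    field_simp
  rw [e, norm_mul, norm_inv, norm_pow, Padic.norm_p, inv_pow, inv_inv]
  exact mul_le_mul_of_nonneg_left h3 (by positivity)

/-- integers near to a given `p`-adic number are in one class -/
lemma cls_rep (x : ℚ_[p]) (R : ℕ) : ∃ ρ : ℤ, ∀ k : ℤ, ‖x + (k : ℚ_[p])‖ ≤ ((p : ℝ) ^ R)⁻¹ →
    k % ((p ^ R : ℕ) : ℤ) = ρ % ((p ^ R : ℕ) : ℤ) := by
  by_cases h : ∃ k0 : ℤ, ‖x + (k0 : ℚ_[p])‖ ≤ ((p : ℝ) ^ R)⁻¹
  · obtain ⟨k0, hk0⟩ := h
    refine ⟨k0, fun k hk => ?_⟩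
    have h3 : ‖((k - k0 : ℤ) : ℚ_[p])‖ ≤ ((p : ℝ) ^ R)⁻¹ := by
      have e : ((k - k0 : ℤ) : ℚ_[p]) = (x + (k : ℚ_[p])) + -(x + (k0 : ℚ_[p])) := by push_cast; ring
      rw [e]
      refine (Padic.nonarchimedean _ _).trans (max_le hk ?_)
      rw [norm_neg]
      exact hk0
    rw [← zpow_natCast, ← zpow_neg] at h3
    have h4 := (Padic.norm_int_le_pow_iff_dvd (p := p) (k - k0) R).1 h3
    have h5 : ((p ^ R : ℕ) : ℤ) ∣ k - k0 := by exact_mod_cast h4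
    exact (Int.modEq_iff_dvd.2 h5).symm
  · push Not at h
    exact ⟨0, fun k hk => absurd hk (not_le.2 (h k))⟩

open Classical in
/-- local solubility has a bounded level outside of a small set -/
lemma densV (n : ℕ) (hn0 : n ≠ 0) (S : (Fin s → ℚ_[p]) → Prop)
    (hS : ∀ b w : Fin s → ℚ_[p], S b → (∀ j, w j ≠ 0) → S (fun j => b j * w j ^ n))
    (f : Fin s → ℤ[X]) (hd : ∀ j, 1 ≤ (f j).natDegree) (B : ℕ) (hB : 1 ≤ B) (η : ℝ) (hη : 0 < η) :
    ∃ N X0 : ℕ, ∀ X : ℕ, X0 ≤ X →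
      (#((Pool.Agent.R479.NF.box f B X).filter (fun k => ElsV f S k ∧ ¬ LocV f S N k)) : ℝ) ≤
        η * ∏ j, (X : ℝ) ^ (f j).natDegree := by
  have hppos : (0 : ℝ) < p := p_pos
  have hp1 : (1 : ℝ) < p := one_lt_p
  have hpq : (p : ℚ_[p]) ≠ 0 := by exact_mod_cast hp.out.ne_zero
  obtain ⟨N1, hN1⟩ := farV n hn0 S hS f hd
  obtain ⟨C, hC⟩ : ∃ C : ℕ, C = ∑ j, 2 * (f j).natDegree * N1 := ⟨_, rfl⟩
  obtain ⟨C1, hC1⟩ : ∃ C1 : ℕ, C1 = ∑ j, #(crit (f j) p) := ⟨_, rfl⟩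
  obtain ⟨G, hG⟩ : ∃ G : ℝ, G = C1 + (s : ℝ) ^ 2 * (p : ℝ) ^ (C + N1) := ⟨_, rfl⟩
  have hG0 : 0 ≤ G := by rw [hG]; positivity
  obtain ⟨R, hR⟩ := exists_pow_gt (p := p) (G * (4 * B) ^ s / η)
  obtain ⟨N2, hN2⟩ := nearV n hn0 S hS f hd N1 R
  obtain ⟨Q, hQ⟩ : ∃ Q, Q = R + C + N1 := ⟨_, rfl⟩
  obtain ⟨M, hM⟩ : ∃ M, M = p ^ R := ⟨_, rfl⟩
  have hM0 : 0 < M := by rw [hM]; exact pow_pos hp.out.pos _
  have hMr : (0 : ℝ) < M := by exact_mod_cast hM0
  have hMe : (M : ℝ) = (p : ℝ) ^ R := by rw [hM]; push_cast; rfl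
  have hrc : ∀ c : ℚ_[p], ∃ ρ : ℤ, ∀ k : ℤ, ‖(k : ℚ_[p]) - c‖ < ((p : ℝ) ^ R)⁻¹ → k % (M : ℤ) = ρ % (M : ℤ) := by
    intro c
    obtain ⟨ρ, h⟩ := cls_rep (-c) R
    refine ⟨ρ, fun k hk => ?_⟩
    rw [hM]
    apply h
    have e : -c + (k : ℚ_[p]) = (k : ℚ_[p]) - c := by ring
    rw [e]
    exact hk.le
  choose ρc hρc using hrc
  have hra : ∀ (a : ℕ) (j : Fin s), ∃ ρ : ℤ, ∀ k : ℤ, ‖aeval ((a : ℚ_[p]) / (p : ℚ_[p]) ^ N1) (f j) + (k : ℚ_[p])‖ ≤ ((p : ℝ) ^ R)⁻¹ →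
      k % (M : ℤ) = ρ % (M : ℤ) := by
    intro a j
    rw [hM]
    exact cls_rep _ R
  choose ρa hρa using hra
  obtain ⟨E, hE⟩ : ∃ E : (Fin s → ℕ) → Finset (Fin s) → (Fin s → ℤ) → Finset (Fin s → ℤ), E = fun H J ρ =>
    (Fintype.piFinset fun j : Fin s => Icc (-(H j : ℤ)) (H j)).filter (fun k => ∀ j ∈ J, k j % (M : ℤ) = ρ j % M) := ⟨_, rfl⟩
  refine ⟨max N1 N2, 1 + M, fun X hX => ?_⟩
  obtain ⟨H, hH⟩ : ∃ H : Fin s → ℕ, H = fun j => B * X ^ (f j).natDegree := ⟨_, rfl⟩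
  obtain ⟨Pi, hPi⟩ : ∃ Pi : ℝ, Pi = ∏ j, (2 * (H j : ℝ) + 1 + M) := ⟨_, rfl⟩
  have hsub : (Pool.Agent.R479.NF.box f B X).filter (fun k => ElsV f S k ∧ ¬ LocV f S (max N1 N2) k) ⊆
      (univ.biUnion fun j : Fin s => (crit (f j) p).biUnion fun c => E H {j} (fun _ => ρc c)) ∪
      ((univ.filter fun x : Fin s × Fin s => x.1 ≠ x.2).biUnion fun x => (range (p ^ Q)).biUnion fun a => E H {x.1, x.2} (ρa a)) := by
    intro k hk
    rw [mem_filter] at hk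
    obtain ⟨hkX, ⟨t, ht1, ht2⟩, hk2⟩ := hk
    have hkH : k ∈ Fintype.piFinset fun j : Fin s => Icc (-(H j : ℤ)) (H j) := by
      rw [hH]
      exact hkX
    by_contra hcon
    rw [mem_union, not_or] at hcon
    apply hk2
    by_cases ht : ‖t‖ ≤ (p : ℝ) ^ N1
    · refine (hN2 k t ⟨⟨?_, ?_⟩, ?_, ?_⟩ ht1 ht2).mono (le_max_right _ _)
      · simpa using ht
      · rw [Metric.mem_closedBall, dist_zero_right, pi_norm_le_iff_of_nonneg zero_le_one]
        exact fun j => Padic.norm_int_le_one (p := p) (k j)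
      · intro j c hc
        by_contra h2
        apply hcon.1
        rw [mem_biUnion]
        refine ⟨j, mem_univ j, mem_biUnion.2 ⟨c, hc, ?_⟩⟩
        rw [hE]
        refine mem_filter.2 ⟨hkH, fun j' hj' => ?_⟩
        rw [mem_singleton] at hj'
        rw [hj']
        exact hρc c (k j) (not_le.1 h2)
      · intro i j hij
        by_contra h2
        apply hcon.2
        rw [not_le, max_lt_iff] at h2
        obtain ⟨a, ha1, ha2⟩ := grid N1 Q t ht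
        rw [mem_biUnion]
        refine ⟨(i, j), mem_filter.2 ⟨mem_univ _, hij⟩, mem_biUnion.2 ⟨a, mem_range.2 ha1, ?_⟩⟩
        rw [hE]
        refine mem_filter.2 ⟨hkH, fun j' hj' => ?_⟩
        apply hρa
        have hta : ‖(a : ℚ_[p]) / (p : ℚ_[p]) ^ N1‖ ≤ (p : ℝ) ^ N1 := by
          rw [norm_div, norm_pow, Padic.norm_p, inv_pow, div_inv_eq_mul]
          apply mul_le_of_le_one_left (by positivity)
          have := Padic.norm_int_le_one (p := p) (a : ℤ)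
          simpa using this
        have h3 := lipB (f j') N1 _ _ ht hta
        have h4 : ‖aeval t (f j') - aeval ((a : ℚ_[p]) / (p : ℚ_[p]) ^ N1) (f j')‖ ≤ ((p : ℝ) ^ R)⁻¹ := by
          refine h3.trans ?_
          have h5 : (p : ℝ) ^ (2 * (f j').natDegree * N1) ≤ (p : ℝ) ^ C := by
            apply pow_le_pow_right₀ hp1.le
            rw [hC]
            exact single_le_sum (f := fun j => 2 * (f j).natDegree * N1) (fun _ _ => Nat.zero_le _) (mem_univ j')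
          calc (p : ℝ) ^ (2 * (f j').natDegree * N1) * ‖t - (a : ℚ_[p]) / (p : ℚ_[p]) ^ N1‖
              ≤ (p : ℝ) ^ C * ((p : ℝ) ^ N1 * ((p : ℝ) ^ Q)⁻¹) :=
                mul_le_mul h5 ha2 (norm_nonneg _) (by positivity)
            _ = ((p : ℝ) ^ R)⁻¹ := by
                rw [hQ, pow_add, pow_add]
                field_simp
        have h5 : ‖aeval t (f j') + (k j' : ℚ_[p])‖ < ((p : ℝ) ^ R)⁻¹ := by
          rw [mem_insert, mem_singleton] at hj'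
          rcases hj' with h | h
          · rw [h]
            exact h2.1
          · rw [h]
            exact h2.2
        have e : aeval ((a : ℚ_[p]) / (p : ℚ_[p]) ^ N1) (f j') + (k j' : ℚ_[p]) = (aeval t (f j') + (k j' : ℚ_[p])) +
            -(aeval t (f j') - aeval ((a : ℚ_[p]) / (p : ℚ_[p]) ^ N1) (f j')) := by ring
        rw [e]
        refine (Padic.nonarchimedean _ _).trans (max_le h5.le ?_)
        rw [norm_neg]
        exact h4
    · exact (hN1 k t (not_le.1 ht) ht2).mono (le_max_left _ _)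
  have hc1 : ∀ (j : Fin s) (c : ℚ_[p]), (#(E H {j} (fun _ => ρc c)) : ℝ) ≤ Pi / M := by
    intro j c
    have h1 := count_cls M hM0 H {j} (fun _ => ρc c)
    rw [card_singleton, pow_one, ← hPi] at h1
    rw [le_div_iff₀ hMr, hE]
    exact h1
  have hc2 : ∀ (x : Fin s × Fin s) (a : ℕ), x.1 ≠ x.2 → (#(E H {x.1, x.2} (ρa a)) : ℝ) ≤ Pi / (M : ℝ) ^ 2 := by
    intro x a hx
    have h1 := count_cls M hM0 H {x.1, x.2} (ρa a)
    rw [card_pair hx, ← hPi] at h1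
    rw [le_div_iff₀ (by positivity), hE]
    exact h1
  have hPi0 : 0 ≤ Pi := by rw [hPi]; exact prod_nonneg fun j _ => by positivity
  have h1 : (#((Pool.Agent.R479.NF.box f B X).filter (fun k => ElsV f S k ∧ ¬ LocV f S (max N1 N2) k)) : ℝ) ≤
      C1 * (Pi / M) + (s : ℝ) ^ 2 * ((p : ℝ) ^ Q * (Pi / (M : ℝ) ^ 2)) := by
    refine (by exact_mod_cast (card_le_card hsub).trans (card_union_le _ _) :
      (#((Pool.Agent.R479.NF.box f B X).filter (fun k => ElsV f S k ∧ ¬ LocV f S (max N1 N2) k)) : ℝ) ≤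
      (#(univ.biUnion fun j : Fin s => (crit (f j) p).biUnion fun c => E H {j} (fun _ => ρc c)) : ℝ) +
      (#((univ.filter fun x : Fin s × Fin s => x.1 ≠ x.2).biUnion fun x => (range (p ^ Q)).biUnion fun a => E H {x.1, x.2} (ρa a)) : ℝ)).trans ?_
    apply add_le_add
    · calc (#(univ.biUnion fun j : Fin s => (crit (f j) p).biUnion fun c => E H {j} (fun _ => ρc c)) : ℝ)
          ≤ ∑ j, ∑ c ∈ crit (f j) p, (#(E H {j} (fun _ => ρc c)) : ℝ) := by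
            exact_mod_cast card_biUnion_le.trans (sum_le_sum fun j _ => card_biUnion_le)
        _ ≤ ∑ j, ∑ c ∈ crit (f j) p, Pi / M := sum_le_sum fun j _ => sum_le_sum fun c _ => hc1 j c
        _ = C1 * (Pi / M) := by
            rw [hC1]
            push_cast
            rw [sum_mul]
            exact sum_congr rfl fun j _ => by rw [sum_const, nsmul_eq_mul]
    · calc (#((univ.filter fun x : Fin s × Fin s => x.1 ≠ x.2).biUnion fun x => (range (p ^ Q)).biUnion fun a => E H {x.1, x.2} (ρa a)) : ℝ)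
          ≤ ∑ x ∈ univ.filter (fun x : Fin s × Fin s => x.1 ≠ x.2), ∑ a ∈ range (p ^ Q), (#(E H {x.1, x.2} (ρa a)) : ℝ) := by
            exact_mod_cast card_biUnion_le.trans (sum_le_sum fun j _ => card_biUnion_le)
        _ ≤ ∑ x ∈ univ.filter (fun x : Fin s × Fin s => x.1 ≠ x.2), ∑ a ∈ range (p ^ Q), Pi / (M : ℝ) ^ 2 :=
            sum_le_sum fun x hx => sum_le_sum fun a _ => hc2 x a (mem_filter.1 hx).2
        _ = #(univ.filter (fun x : Fin s × Fin s => x.1 ≠ x.2)) * ((p : ℝ) ^ Q * (Pi / (M : ℝ) ^ 2)) := by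
            rw [sum_const, sum_const, nsmul_eq_mul, nsmul_eq_mul, card_range]
            push_cast
            rfl
        _ ≤ _ := by
            apply mul_le_mul_of_nonneg_right _ (by positivity)
            have h2 := card_filter_le (univ : Finset (Fin s × Fin s)) (fun x => x.1 ≠ x.2)
            rw [card_univ, Fintype.card_prod, Fintype.card_fin] at h2
            rw [pow_two]
            exact_mod_cast h2
  refine h1.trans ?_
  have h2 : C1 * (Pi / M) + (s : ℝ) ^ 2 * ((p : ℝ) ^ Q * (Pi / (M : ℝ) ^ 2)) = G / (p : ℝ) ^ R * Pi := by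
    rw [hMe, hQ, hG, pow_add _ (R + C) N1, pow_add _ R C, pow_add _ C N1]
    field_simp
  rw [h2]
  have h3 : Pi ≤ (4 * B) ^ s * ∏ j, (X : ℝ) ^ (f j).natDegree := by
    have h3 : ((4 : ℝ) * B) ^ s = ∏ _j : Fin s, ((4 : ℝ) * B) := by rw [prod_const, card_univ, Fintype.card_fin]
    rw [h3, ← prod_mul_distrib, hPi, hH]
    apply Finset.prod_le_prod
    · intro j _
      exact (Pool.Agent.R479.NF.num_box B X M (f j).natDegree hB (hd j) hX).1
    · intro j _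
      exact (Pool.Agent.R479.NF.num_box B X M (f j).natDegree hB (hd j) hX).2
  have hPr0 : 0 ≤ ∏ j, (X : ℝ) ^ (f j).natDegree := prod_nonneg fun j _ => by positivity
  calc G / (p : ℝ) ^ R * Pi ≤ G / (p : ℝ) ^ R * ((4 * B) ^ s * ∏ j, (X : ℝ) ^ (f j).natDegree) :=
        mul_le_mul_of_nonneg_left h3 (by positivity)
    _ = (G * (4 * B) ^ s / (p : ℝ) ^ R) * ∏ j, (X : ℝ) ^ (f j).natDegree := by ring
    _ ≤ η * ∏ j, (X : ℝ) ^ (f j).natDegree := by
        apply mul_le_mul_of_nonneg_right _ hPr0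
        rw [div_lt_iff₀ hη] at hR
        rw [div_le_iff₀ (by positivity)]
        linarith

end padic

end Pool.Agent.U637.OP
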