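import Pool.Agent.R479.NF.Dens
import Pool.Agent.Y714.RC.C2
import Pool.Agent.Y714.RC.B1

/-!
# Local solubility of bounded level for systems: the `p`-adic numbers
-/

set_option autoImplicit false
set_option linter.unusedVariables false

namespace Pool.Agent.U637.OP

open Finset Polynomial Filter Topology
open Pool.Agent.TH204.HP
open Pool.Agent.R479.NF (exists_step far_root root_near)
open Pool.Agent.Y714.RC (PP)

section padic

variable {p : ℕ} [hp : Fact p.Prime] {s : ℕ}

/-- local solubility of level `N` -/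
def LocV (f : Fin s → ℤ[X]) (S : (Fin s → ℚ_[p]) → Prop) (N : ℕ) (k : Fin s → ℤ) : Prop :=
  ∃ t : ℚ_[p], ‖t‖ ≤ (p : ℝ) ^ N ∧ (∀ j, ((p : ℝ) ^ N)⁻¹ ≤ ‖PP f k j t‖) ∧ S (fun j => PP f k j t)

/-- local solubility -/
def ElsV (f : Fin s → ℤ[X]) (S : (Fin s → ℚ_[p]) → Prop) (k : Fin s → ℤ) : Prop :=
  ∃ t : ℚ_[p], (∀ j, PP f k j t ≠ 0) ∧ S (fun j => PP f k j t)

lemma LocV.mono {f : Fin s → ℤ[X]} {S : (Fin s → ℚ_[p]) → Prop} {N N' : ℕ} {k : Fin s → ℤ} (h : LocV f S N k)
    (hN : N ≤ N') : LocV f S N' k := by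
  obtain ⟨t, h1, h2, h3⟩ := h
  have h4 : (p : ℝ) ^ N ≤ (p : ℝ) ^ N' := pow_le_pow_right₀ one_lt_p.le hN
  exact ⟨t, h1.trans h4, fun j => (inv_anti₀ (pow_pos p_pos _) h4).trans (h2 j), h3⟩

/-- points far away -/
lemma farV (n : ℕ) (hn0 : n ≠ 0) (S : (Fin s → ℚ_[p]) → Prop)
    (hS : ∀ b w : Fin s → ℚ_[p], S b → (∀ j, w j ≠ 0) → S (fun j => b j * w j ^ n))
    (f : Fin s → ℤ[X]) (hd : ∀ j, 1 ≤ (f j).natDegree) :
    ∃ N1 : ℕ, ∀ (k : Fin s → ℤ) (t : ℚ_[p]), (p : ℝ) ^ N1 < ‖t‖ → S (fun j => PP f k j t) → LocV f S N1 k := by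
  have hppos : (0 : ℝ) < p := p_pos
  have hp1 : (1 : ℝ) < p := one_lt_p
  have hlc : ∀ j, (f j).leadingCoeff ≠ 0 := by
    intro j
    rw [Ne, leadingCoeff_eq_zero]
    intro h
    have := hd j
    rw [h] at this
    simp at this
  have hlc' : ∀ j, (((f j).leadingCoeff : ℤ) : ℚ_[p]) ≠ 0 := fun j => by exact_mod_cast hlc j
  have hln : ∀ j, 0 < ‖(((f j).leadingCoeff : ℤ) : ℚ_[p])‖ := fun j => norm_pos_iff.2 (hlc' j)
  have hnn : 0 < ‖((n : ℕ) : ℚ_[p])‖ := norm_pos_iff.2 (by exact_mod_cast hn0)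
  have h4n : 0 < ‖((n : ℕ) : ℚ_[p])‖ ^ 2 := by positivity
  have four_norm_le : ‖((n : ℕ) : ℚ_[p])‖ ^ 2 ≤ 1 := by
    apply pow_le_one₀ (norm_nonneg _)
    have := Padic.norm_int_le_one (p := p) (n : ℤ)
    simpa using this
  have hN0 : ∀ j, ∃ N0 : ℕ, (‖((n : ℕ) : ℚ_[p])‖ ^ 2 * ‖(((f j).leadingCoeff : ℤ) : ℚ_[p])‖)⁻¹ < (p : ℝ) ^ N0 :=
    fun j => exists_pow_gt _
  choose N0' hN0' using hN0
  obtain ⟨N0, hN0⟩ : ∃ N0, N0 = ∑ j, N0' j := ⟨_, rfl⟩
  have h0 : ∀ j, 1 < (p : ℝ) ^ N0 * (‖((n : ℕ) : ℚ_[p])‖ ^ 2 * ‖(((f j).leadingCoeff : ℤ) : ℚ_[p])‖) := by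
    intro j
    have h1 := hN0' j
    have hl := hln j
    rw [inv_lt_iff_one_lt_mul₀ (by positivity)] at h1
    refine h1.trans_le (mul_le_mul_of_nonneg_right (pow_le_pow_right₀ hp1.le ?_) (by positivity))
    rw [hN0]
    exact single_le_sum (f := N0') (fun _ _ => Nat.zero_le _) (mem_univ j)
  refine ⟨N0 + n, fun k t ht hs => ?_⟩
  have ht0 : t ≠ 0 := by
    rintro rfl
    rw [norm_zero] at ht
    have : (0 : ℝ) < (p : ℝ) ^ (N0 + n) := by positivity
    linarith
  have htn := Padic.norm_eq_zpow_neg_valuation ht0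
  obtain ⟨v, hv⟩ : ∃ v : ℤ, v = -t.valuation := ⟨_, rfl⟩
  rw [← hv] at htn
  have hvN : ((N0 + n : ℕ) : ℤ) < v := by
    rw [htn, ← zpow_natCast] at ht
    exact (zpow_lt_zpow_iff_right₀ hp1).1 ht
  push_cast at hvN
  obtain ⟨i, hi1, hi2⟩ := exists_step n hn0 v N0 (by linarith)
  obtain ⟨t', ht'⟩ : ∃ t' : ℚ_[p], t' = t * ((p : ℚ_[p]) ^ i) ^ n := ⟨_, rfl⟩
  have ht'n : ‖t'‖ = (p : ℝ) ^ (v - n * i) := by
    rw [ht', norm_mul, norm_pow, norm_pow, Padic.norm_p, htn, zpow_sub₀ hppos.ne']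
    rw [inv_pow, inv_pow, ← pow_mul, div_eq_mul_inv]
    congr 2
    rw [← zpow_natCast]
    congr 1
    push_cast
    ring
  have hlow : (p : ℝ) ^ N0 ≤ ‖t'‖ := by
    rw [ht'n, ← zpow_natCast]
    exact zpow_le_zpow_right₀ hp1.le hi1
  have hup : ‖t'‖ ≤ (p : ℝ) ^ (N0 + n) := by
    rw [ht'n, ← zpow_natCast]
    exact zpow_le_zpow_right₀ hp1.le (by push_cast; exact hi2)
  have hs1 := fun j => far_root n hn0 (f j) (hd j) N0 (h0 j) (k j) t (le_trans (pow_le_pow_right₀ hp1.le (by omega)) ht.le)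
  have hs2 := fun j => far_root n hn0 (f j) (hd j) N0 (h0 j) (k j) t' hlow
  choose s1 hs1e hs1n using hs1
  choose s2 hs2e hs2n using hs2
  have ht'0 : 0 < ‖t'‖ := lt_of_lt_of_le (by positivity) hlow
  have hs10 : ∀ j, s1 j ≠ 0 := by
    intro j h
    have h1 := hs1e j
    rw [h, zero_pow hn0, mul_zero] at h1
    have h2 := hs1n j
    rw [h1, norm_zero] at h2
    have h9 : 0 < ‖t‖ := norm_pos_iff.2 ht0
    have h10 : 0 < ‖(((f j).leadingCoeff : ℤ) : ℚ_[p])‖ * ‖t‖ ^ (f j).natDegree := mul_pos (hln j) (pow_pos h9 _)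
    linarith
  have hs20 : ∀ j, s2 j ≠ 0 := by
    intro j h
    have h1 := hs2e j
    rw [h, zero_pow hn0, mul_zero] at h1
    have h2 := hs2n j
    rw [h1, norm_zero] at h2
    have h10 : 0 < ‖(((f j).leadingCoeff : ℤ) : ℚ_[p])‖ * ‖t'‖ ^ (f j).natDegree := mul_pos (hln j) (pow_pos ht'0 _)
    linarith
  refine ⟨t', hup, fun j => ?_, ?_⟩
  · have h00 : ‖PP f k j t'‖ = ‖(((f j).leadingCoeff : ℤ) : ℚ_[p])‖ * ‖t'‖ ^ (f j).natDegree := hs2n j
    rw [h00]
    have h1 : ((p : ℝ) ^ N0)⁻¹ ≤ ‖(((f j).leadingCoeff : ℤ) : ℚ_[p])‖ := by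
      rw [inv_le_iff_one_le_mul₀ (by positivity)]
      have h2 : (p : ℝ) ^ N0 * (‖((n : ℕ) : ℚ_[p])‖ ^ 2 * ‖(((f j).leadingCoeff : ℤ) : ℚ_[p])‖) ≤
          (p : ℝ) ^ N0 * ‖(((f j).leadingCoeff : ℤ) : ℚ_[p])‖ :=
        mul_le_mul_of_nonneg_left (mul_le_of_le_one_left (hln j).le four_norm_le) (by positivity)
      rw [mul_comm]
      linarith [h0 j]
    have h2 : ((p : ℝ) ^ (N0 + n))⁻¹ ≤ ((p : ℝ) ^ N0)⁻¹ :=
      inv_anti₀ (by positivity) (pow_le_pow_right₀ hp1.le (by omega))
    have h3 : 1 ≤ ‖t'‖ ^ (f j).natDegree := one_le_pow₀ (le_trans (one_le_pow₀ hp1.le) hlow)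
    calc ((p : ℝ) ^ (N0 + n))⁻¹ ≤ ‖(((f j).leadingCoeff : ℤ) : ℚ_[p])‖ := h2.trans h1
      _ ≤ _ := le_mul_of_one_le_right (hln j).le h3
  · have hpq : (p : ℚ_[p]) ≠ 0 := by exact_mod_cast hp.out.ne_zero
    have e : (fun j => PP f k j t') = fun j => PP f k j t * (((p : ℚ_[p]) ^ i) ^ (f j).natDegree * s2 j / s1 j) ^ n := by
      funext j
      have e1 : PP f k j t' = (((f j).leadingCoeff : ℤ) : ℚ_[p]) * t' ^ (f j).natDegree * s2 j ^ n := hs2e j
      have e2 : PP f k j t = (((f j).leadingCoeff : ℤ) : ℚ_[p]) * t ^ (f j).natDegree * s1 j ^ n := hs1e j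
      have h1 := hs10 j
      rw [e1, e2, ht']
      obtain ⟨P, hP⟩ : ∃ P, P = (p : ℚ_[p]) ^ i := ⟨_, rfl⟩
      rw [← hP, mul_pow t, ← pow_mul, div_pow, mul_pow, ← pow_mul, mul_comm n (f j).natDegree]
      field_simp
    rw [e]
    exact hS _ _ hs fun j => div_ne_zero (mul_ne_zero (pow_ne_zero _ (pow_ne_zero _ hpq)) (hs20 j)) (hs10 j)

/-- the set of the compactness argument -/
def KK (f : Fin s → ℤ[X]) (N1 R : ℕ) : Set (ℚ_[p] × (Fin s → ℚ_[p])) :=
  (Metric.closedBall 0 ((p : ℝ) ^ N1) ×ˢ Metric.closedBall 0 1) ∩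
    ({y | ∀ j, ∀ c ∈ crit (f j) p, ((p : ℝ) ^ R)⁻¹ ≤ ‖y.2 j - c‖} ∩
      {y | ∀ i j, i ≠ j → ((p : ℝ) ^ R)⁻¹ ≤ max ‖aeval y.1 (f i) + y.2 i‖ ‖aeval y.1 (f j) + y.2 j‖})

lemma KK_compact (f : Fin s → ℤ[X]) (N1 R : ℕ) : IsCompact (KK (p := p) f N1 R) := by
  unfold KK
  apply ((isCompact_closedBall _ _).prod (isCompact_closedBall _ _)).inter_right
  apply IsClosed.inter
  · have e : {y : ℚ_[p] × (Fin s → ℚ_[p]) | ∀ j, ∀ c ∈ crit (f j) p, ((p : ℝ) ^ R)⁻¹ ≤ ‖y.2 j - c‖} =
        ⋂ j, ⋂ c ∈ crit (f j) p, {y : ℚ_[p] × (Fin s → ℚ_[p]) | ((p : ℝ) ^ R)⁻¹ ≤ ‖y.2 j - c‖} := by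
      ext y
      simp
    rw [e]
    refine isClosed_iInter fun j => isClosed_biInter fun c _ => ?_
    exact isClosed_le continuous_const (by fun_prop)
  · have e : {y : ℚ_[p] × (Fin s → ℚ_[p]) | ∀ i j, i ≠ j →
          ((p : ℝ) ^ R)⁻¹ ≤ max ‖aeval y.1 (f i) + y.2 i‖ ‖aeval y.1 (f j) + y.2 j‖} =
        ⋂ i, ⋂ j, ⋂ (_ : i ≠ j), {y : ℚ_[p] × (Fin s → ℚ_[p]) |
          ((p : ℝ) ^ R)⁻¹ ≤ max ‖aeval y.1 (f i) + y.2 i‖ ‖aeval y.1 (f j) + y.2 j‖} := by
      ext y
      simp
    rw [e]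
    refine isClosed_iInter fun i => isClosed_iInter fun j => isClosed_iInter fun _ => ?_
    have hc : ∀ i, Continuous (fun y : ℚ_[p] × (Fin s → ℚ_[p]) => aeval y.1 (f i)) :=
      fun i => (cont (f i)).comp continuous_fst
    have h1 := hc i
    have h2 := hc j
    exact isClosed_le continuous_const (by fun_prop)

/-- bounded points, away from the critical values and from double zeros -/
lemma nearV (n : ℕ) (hn0 : n ≠ 0) (S : (Fin s → ℚ_[p]) → Prop)
    (hS : ∀ b w : Fin s → ℚ_[p], S b → (∀ j, w j ≠ 0) → S (fun j => b j * w j ^ n))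
    (f : Fin s → ℤ[X]) (hd : ∀ j, 1 ≤ (f j).natDegree) (N1 R : ℕ) :
    ∃ N2 : ℕ, ∀ k : Fin s → ℤ, ∀ t : ℚ_[p], (t, fun j => (k j : ℚ_[p])) ∈ KK (p := p) f N1 R →
      (∀ j, PP f k j t ≠ 0) → S (fun j => PP f k j t) → LocV f S N2 k := by
  classical
  have hppos : (0 : ℝ) < p := p_pos
  have hp1 : (1 : ℝ) < p := one_lt_p
  have hnn : 0 < ‖((n : ℕ) : ℚ_[p])‖ := norm_pos_iff.2 (by exact_mod_cast hn0)
  have hn1 : ‖((n : ℕ) : ℚ_[p])‖ ^ 2 ≤ 1 := by
    apply pow_le_one₀ (norm_nonneg _)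
    have := Padic.norm_int_le_one (p := p) (n : ℤ)
    simpa using this
  have hmain : ∃ N2 : ℕ, ∀ (t : ℚ_[p]) (k : Fin s → ℤ), (t, fun j => (k j : ℚ_[p])) ∈ KK (p := p) f N1 R →
      (∀ j, PP f k j t ≠ 0) → S (fun j => PP f k j t) → LocV f S N2 k := by
    refine (KK_compact (p := p) f N1 R).induction_on (p := fun W => ∃ N2 : ℕ, ∀ (t : ℚ_[p]) (k : Fin s → ℤ),
      (t, fun j => (k j : ℚ_[p])) ∈ W → (∀ j, PP f k j t ≠ 0) → S (fun j => PP f k j t) → LocV f S N2 k) ?_ ?_ ?_ ?_
    · exact ⟨0, fun t k h => absurd h (by simp)⟩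
    · rintro W W' hWW ⟨N2, h⟩
      exact ⟨N2, fun t k hk => h t k (hWW hk)⟩
    · rintro W W' ⟨N2, h⟩ ⟨N2', h'⟩
      refine ⟨max N2 N2', fun t k hk hne hs => ?_⟩
      rcases hk with hk | hk
      · exact (h t k hk hne hs).mono (le_max_left _ _)
      · exact (h' t k hk hne hs).mono (le_max_right _ _)
    · rintro ⟨t0, κ⟩ hx
      have hx' := hx
      obtain ⟨⟨hx1, hx2⟩, hx3, hx4⟩ := hx'
      simp only [Metric.mem_closedBall, dist_zero_right, Set.mem_ofPred_eq] at hx1 hx2 hx3 hx4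
      have hcj : ∀ j, Continuous (fun y : ℚ_[p] × (Fin s → ℚ_[p]) => aeval y.1 (f j)) :=
        fun j => (cont (f j)).comp continuous_fst
      by_cases h0 : ∃ j, aeval t0 (f j) + κ j = 0
      · -- a zero
        obtain ⟨j0, h0⟩ := h0
        have hκ : -aeval t0 (f j0) = κ j0 := by linear_combination -h0
        have hoth : ∀ j, j ≠ j0 → ((p : ℝ) ^ R)⁻¹ ≤ ‖aeval t0 (f j) + κ j‖ := by
          intro j hj
          have h1 := hx4 j j0 hj
          rw [h0, norm_zero] at h1
          rcases le_max_iff.1 h1 with h2 | h2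
          · exact h2
          · exact absurd h2 (not_le.2 (by positivity))
        have hnc : -aeval t0 (f j0) ∉ crit (f j0) p := by
          intro h
          have h1 := hx3 j0 _ h
          rw [hκ, sub_self, norm_zero] at h1
          have : 0 < ((p : ℝ) ^ R)⁻¹ := by positivity
          linarith
        have hder := not_crit (f j0) (hd j0) t0 hnc
        have hst : HasStrictDerivAt (fun t : ℚ_[p] => aeval t (f j0))
            (((f j0).map (Int.castRingHom ℚ_[p])).derivative.eval t0) t0 := by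
          have h1 := ((f j0).map (Int.castRingHom ℚ_[p])).hasStrictDerivAt t0
          have e : (fun t : ℚ_[p] => ((f j0).map (Int.castRingHom ℚ_[p])).eval t) = fun t : ℚ_[p] => aeval t (f j0) := by
            funext t
            rw [eval_map]
            rfl
          rw [e] at h1
          exact h1
        -- the radius
        obtain ⟨ρ, hρ⟩ : ∃ ρ : ℝ, ρ = ‖((n : ℕ) : ℚ_[p])‖ ^ 2 * ((p : ℝ) ^ R)⁻¹ := ⟨_, rfl⟩
        have hρ0 : 0 < ρ := by rw [hρ]; positivity
        have hρR : ρ ≤ ((p : ℝ) ^ R)⁻¹ := by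
          rw [hρ]
          exact mul_le_of_le_one_left (by positivity) hn1
        obtain ⟨δ, hδ0, hδ1, hδ⟩ : ∃ δ : ℝ, 0 < δ ∧ δ ≤ 1 ∧ ∀ t, ‖t - t0‖ < δ → ∀ j, ‖aeval t (f j) - aeval t0 (f j)‖ < ρ := by
          have h1 : ∀ᶠ t in 𝓝 t0, ∀ j, ‖aeval t (f j) - aeval t0 (f j)‖ < ρ := by
            rw [eventually_all]
            intro j
            have h2 : Continuous (fun t : ℚ_[p] => ‖aeval t (f j) - aeval t0 (f j)‖) :=
              ((cont (f j)).sub continuous_const).norm
            exact h2.continuousAt.eventually_lt continuousAt_const (by simpa using hρ0)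
          obtain ⟨δ, hδ0, hδ⟩ := Metric.eventually_nhds_iff.1 h1
          refine ⟨min δ 1, lt_min hδ0 one_pos, min_le_right _ _, fun t ht j => hδ (y := t) ?_ j⟩
          rw [dist_eq_norm]
          exact ht.trans_le (min_le_left _ _)
        have hmap := hst.map_nhds_eq hder
        have hV : (fun t : ℚ_[p] => aeval t (f j0)) '' (Metric.ball t0 δ) ∈ 𝓝 (aeval t0 (f j0)) := by
          rw [← hmap]
          exact image_mem_map (Metric.ball_mem_nhds t0 hδ0)
        obtain ⟨ε', hε', hball'⟩ := Metric.mem_nhds_iff.1 hV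
        obtain ⟨ε, hεe⟩ : ∃ ε, ε = min ε' ρ := ⟨_, rfl⟩
        have hε : 0 < ε := by rw [hεe]; exact lt_min hε' hρ0
        have hball : Metric.ball (aeval t0 (f j0)) ε ⊆ (fun t : ℚ_[p] => aeval t (f j0)) '' (Metric.ball t0 δ) :=
          (Metric.ball_subset_ball (by rw [hεe]; exact min_le_left _ _)).trans hball'
        have hερ : ε ≤ ρ := by rw [hεe]; exact min_le_right _ _
        obtain ⟨m, hm⟩ := exists_pow_gt (p := p) ε⁻¹
        have hm2 : ((p : ℝ) ^ (2 * m))⁻¹ < ε := by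
          rw [inv_lt_comm₀ (by positivity) hε]
          refine hm.trans_le (pow_le_pow_right₀ hp1.le (by omega))
        refine ⟨KK (p := p) f N1 R ∩ ({y | ‖y.1 - t0‖ < δ} ∩ {y | ‖y.2 - κ‖ < ε}), ?_, max (max N1 R) (2 * m + n), ?_⟩
        · apply inter_mem self_mem_nhdsWithin
          apply mem_nhdsWithin_of_mem_nhds
          apply IsOpen.mem_nhds
          · exact (isOpen_lt (by fun_prop) continuous_const).inter (isOpen_lt (by fun_prop) continuous_const)
          · constructor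
            · simpa using hδ0
            · simpa using hε
        · rintro t k ⟨hk1, hk2, hk2'⟩ hne hs
          simp only [Set.mem_ofPred_eq] at hk2 hk2'
          obtain ⟨⟨hk3, -⟩, -⟩ := hk1
          simp only [Metric.mem_closedBall, dist_zero_right] at hk3
          have hkj : ∀ j, ‖(k j : ℚ_[p]) - κ j‖ < ε := fun j =>
            (norm_le_pi_norm ((fun j => (k j : ℚ_[p])) - κ) j).trans_lt hk2'
          have hN1 : (p : ℝ) ^ N1 ≤ (p : ℝ) ^ max (max N1 R) (2 * m + n) :=
            pow_le_pow_right₀ hp1.le ((le_max_left _ _).trans (le_max_left _ _))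
          have hNR : ((p : ℝ) ^ max (max N1 R) (2 * m + n))⁻¹ ≤ ((p : ℝ) ^ R)⁻¹ :=
            inv_anti₀ (by positivity) (pow_le_pow_right₀ hp1.le ((le_max_right _ _).trans (le_max_left _ _)))
          -- all the values at points near to t0
          have hval : ∀ t', ‖t' - t0‖ < δ → ∀ j, ‖PP f k j t' - (aeval t0 (f j) + κ j)‖ < ρ := by
            intro t' ht' j
            have e : PP f k j t' - (aeval t0 (f j) + κ j) = (aeval t' (f j) - aeval t0 (f j)) + ((k j : ℚ_[p]) - κ j) := by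
              unfold PP
              ring
            rw [e]
            exact (Padic.nonarchimedean _ _).trans_lt (max_lt (hδ t' ht' j) ((hkj j).trans_le hερ))
          have hvn : ∀ t', ‖t' - t0‖ < δ → ∀ j, j ≠ j0 → ((p : ℝ) ^ R)⁻¹ ≤ ‖PP f k j t'‖ := by
            intro t' ht' j hj
            have h1 := hval t' ht' j
            have h2 := hoth j hj
            have h3 : ‖PP f k j t'‖ = ‖aeval t0 (f j) + κ j‖ :=
              norm_eq_of_near _ _ (h1.trans_le (hρR.trans h2))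
            rw [h3]
            exact h2
          obtain ⟨b, hb⟩ : ∃ b : ℚ_[p], b = PP f k j0 t := ⟨_, rfl⟩
          have hb0 : b ≠ 0 := by rw [hb]; exact hne j0
          by_cases hbn : ((p : ℝ) ^ (2 * m + n))⁻¹ ≤ ‖b‖
          · refine ⟨t, hk3.trans hN1, fun j => ?_, hs⟩
            by_cases hj : j = j0
            · rw [hj, ← hb]
              refine le_trans ?_ hbn
              exact inv_anti₀ (by positivity) (pow_le_pow_right₀ hp1.le (le_max_right _ _))
            · exact hNR.trans (hvn t hk2 j hj)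
          · rw [not_le] at hbn
            have hbv := Padic.norm_eq_zpow_neg_valuation hb0
            obtain ⟨v, hv⟩ : ∃ v : ℤ, v = b.valuation := ⟨_, rfl⟩
            rw [← hv] at hbv
            have hvm : (2 * (m : ℤ) + n) < v := by
              rw [hbv, ← inv_zpow] at hbn
              have := (zpow_lt_zpow_iff_right₀ hp1).1 hbn
              push_cast at this
              linarith
            obtain ⟨i, hi1, hi2⟩ := exists_step n hn0 v (2 * m) (by push_cast; linarith)
            push_cast at hi1 hi2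
            have hpq : (p : ℚ_[p]) ≠ 0 := by exact_mod_cast hp.out.ne_zero
            obtain ⟨b', hb'⟩ : ∃ b' : ℚ_[p], b' = b * (((p : ℚ_[p]) ^ i)⁻¹) ^ n := ⟨_, rfl⟩
            have hb'n : ‖b'‖ = (p : ℝ) ^ (-(v - n * i)) := by
              rw [hb', norm_mul, norm_pow, norm_inv, norm_pow, Padic.norm_p, hbv]
              rw [inv_pow, inv_pow, inv_pow, inv_inv, ← pow_mul, ← zpow_natCast, ← zpow_add₀ hppos.ne']
              congr 1
              push_cast
              ring
            have hb'1 : ‖b'‖ ≤ ((p : ℝ) ^ (2 * m))⁻¹ := by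
              rw [hb'n, ← inv_zpow]
              apply zpow_le_zpow_right₀ hp1.le
              push_cast
              linarith
            have hb'2 : ((p : ℝ) ^ (2 * m + n))⁻¹ ≤ ‖b'‖ := by
              rw [hb'n, ← inv_zpow]
              apply zpow_le_zpow_right₀ hp1.le
              push_cast
              linarith
            have hin : -(k j0 : ℚ_[p]) + b' ∈ Metric.ball (aeval t0 (f j0)) ε := by
              rw [Metric.mem_ball, dist_eq_norm]
              have e : -(k j0 : ℚ_[p]) + b' - aeval t0 (f j0) = -((k j0 : ℚ_[p]) - κ j0) + b' := by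
                rw [← hκ]
                ring
              rw [e]
              refine (Padic.nonarchimedean _ _).trans_lt (max_lt ?_ (hb'1.trans_lt hm2))
              rw [norm_neg]
              exact hkj j0
            obtain ⟨t', ht'1, ht'2⟩ := hball hin
            simp only at ht'2
            rw [Metric.mem_ball, dist_eq_norm] at ht'1
            have hft : PP f k j0 t' = b' := by
              unfold PP
              rw [ht'2]
              ring
            have hw : ∀ j, ∃ w : ℚ_[p], w ≠ 0 ∧ PP f k j t' = PP f k j t * w ^ n := by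
              intro j
              by_cases hj : j = j0
              · refine ⟨((p : ℚ_[p]) ^ i)⁻¹, inv_ne_zero (pow_ne_zero _ hpq), ?_⟩
                rw [hj, hft, hb', hb]
              · have h1 := hvn t hk2 j hj
                have h2 := hvn t' ht'1 j hj
                have h3 : ‖PP f k j t' - PP f k j t‖ < ‖((n : ℕ) : ℚ_[p])‖ ^ 2 * ‖PP f k j t‖ := by
                  have e : PP f k j t' - PP f k j t = (PP f k j t' - (aeval t0 (f j) + κ j)) +
                      -(PP f k j t - (aeval t0 (f j) + κ j)) := by ring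
                  rw [e]
                  refine (Padic.nonarchimedean _ _).trans_lt (max_lt ?_ ?_)
                  · refine (hval t' ht'1 j).trans_le ?_
                    rw [hρ]
                    exact mul_le_mul_of_nonneg_left h1 (by positivity)
                  · rw [norm_neg]
                    refine (hval t hk2 j).trans_le ?_
                    rw [hρ]
                    exact mul_le_mul_of_nonneg_left h1 (by positivity)
                obtain ⟨w, hw⟩ := root_near n _ _ (hne j) h3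
                refine ⟨w, ?_, hw⟩
                rintro rfl
                rw [zero_pow hn0, mul_zero] at hw
                rw [hw, norm_zero] at h2
                exact absurd h2 (not_le.2 (by positivity))
            choose w hw0 hw using hw
            refine ⟨t', ?_, fun j => ?_, ?_⟩
            · have e : t' = (t' - t0) + t0 := by ring
              have h1 : (1 : ℝ) ≤ (p : ℝ) ^ N1 := one_le_pow₀ hp1.le
              calc ‖t'‖ ≤ max ‖t' - t0‖ ‖t0‖ := by
                    conv_lhs => rw [e]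
                    exact Padic.nonarchimedean _ _
                _ ≤ (p : ℝ) ^ N1 := max_le (ht'1.le.trans (hδ1.trans h1)) hx1
                _ ≤ _ := hN1
            · by_cases hj : j = j0
              · rw [hj, hft]
                refine le_trans ?_ hb'2
                exact inv_anti₀ (by positivity) (pow_le_pow_right₀ hp1.le (le_max_right _ _))
              · exact hNR.trans (hvn t' ht'1 j hj)
            · have e : (fun j => PP f k j t') = fun j => PP f k j t * w j ^ n := funext hw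
              rw [e]
              exact hS _ _ hs hw0
      · -- not a zero
        push Not at h0
        have hδ : ∀ j, 0 < ‖aeval t0 (f j) + κ j‖ := fun j => norm_pos_iff.2 (h0 j)
        have hm : ∀ j, ∃ m : ℕ, ((p : ℝ) ^ m)⁻¹ < ‖aeval t0 (f j) + κ j‖ / 2 := by
          intro j
          obtain ⟨m, hm⟩ := exists_pow_gt (p := p) (‖aeval t0 (f j) + κ j‖ / 2)⁻¹
          refine ⟨m, ?_⟩
          rw [inv_lt_comm₀ (by positivity) (by linarith [hδ j])]
          exact hm
        choose m hm2 using hm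
        refine ⟨KK (p := p) f N1 R ∩ {y | ∀ j, ‖aeval t0 (f j) + κ j‖ / 2 < ‖aeval y.1 (f j) + y.2 j‖}, ?_, max N1 (∑ j, m j), ?_⟩
        · apply inter_mem self_mem_nhdsWithin
          apply mem_nhdsWithin_of_mem_nhds
          have h1 : ∀ᶠ y : ℚ_[p] × (Fin s → ℚ_[p]) in 𝓝 (t0, κ), ∀ j, ‖aeval t0 (f j) + κ j‖ / 2 < ‖aeval y.1 (f j) + y.2 j‖ := by
            rw [eventually_all]
            intro j
            have h2 := hcj j
            have h3 : Continuous (fun y : ℚ_[p] × (Fin s → ℚ_[p]) => ‖aeval y.1 (f j) + y.2 j‖) := by fun_prop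
            exact continuousAt_const.eventually_lt h3.continuousAt (by simpa using hδ j)
          exact h1
        · rintro t k ⟨hk1, hk2⟩ hne hs
          simp only [Set.mem_ofPred_eq] at hk2
          obtain ⟨⟨hk3, -⟩, -⟩ := hk1
          simp only [Metric.mem_closedBall, dist_zero_right] at hk3
          refine ⟨t, hk3.trans (pow_le_pow_right₀ hp1.le (le_max_left _ _)), fun j => ?_, hs⟩
          refine le_trans ?_ ((hm2 j).trans (hk2 j)).le
          refine inv_anti₀ (by positivity) (pow_le_pow_right₀ hp1.le (le_trans ?_ (le_max_right _ _)))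
          exact single_le_sum (f := m) (fun _ _ => Nat.zero_le _) (mem_univ j)
  obtain ⟨N2, hN2⟩ := hmain
  exact ⟨N2, fun k t h => hN2 t k h⟩

end padic

end Pool.Agent.U637.OP
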