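import Pool.Agent.Y714.RC.B1

/-!
# Moving a real point away from the zeros, at the natural scale
-/

set_option autoImplicit false
set_option linter.unusedVariables false

namespace Pool.Agent.U637.OP

open Finset Polynomial Filter Topology
open Pool.Agent.Y714.RC (PP)

lemma aeval_abs_le (g : ℤ[X]) : ∃ A : ℝ, 0 ≤ A ∧ ∀ m : ℕ, g.natDegree ≤ m → ∀ T : ℝ, 1 ≤ T → ∀ t : ℝ, |t| ≤ T →
    |aeval t g| ≤ A * T ^ m := by
  refine ⟨∑ i ∈ range (g.natDegree + 1), |(g.coeff i : ℝ)|, sum_nonneg fun _ _ => abs_nonneg _, fun m hm T hT t ht => ?_⟩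
  rw [aeval_eq_sum_range, sum_mul]
  refine (abs_sum_le_sum_abs _ _).trans (sum_le_sum fun i hi => ?_)
  rw [mem_range] at hi
  rw [zsmul_eq_mul, abs_mul, abs_pow]
  apply mul_le_mul_of_nonneg_left _ (abs_nonneg _)
  calc |t| ^ i ≤ T ^ i := pow_le_pow_left₀ (abs_nonneg _) ht i
    _ ≤ T ^ m := pow_le_pow_right₀ hT (by omega)

lemma lead_approx (f : ℤ[X]) (hd : 1 ≤ f.natDegree) : ∃ A : ℝ, 0 ≤ A ∧ ∀ T : ℝ, 1 ≤ T → ∀ t : ℝ, |t| ≤ T →
    |aeval t f - (f.leadingCoeff : ℝ) * t ^ f.natDegree| ≤ A * T ^ (f.natDegree - 1) := by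
  obtain ⟨A, hA, h⟩ := aeval_abs_le f.eraseLead
  refine ⟨A, hA, fun T hT t ht => ?_⟩
  have e : aeval t f = aeval t f.eraseLead + (f.leadingCoeff : ℝ) * t ^ f.natDegree := by
    conv_lhs => rw [← eraseLead_add_C_mul_X_pow f]
    rw [map_add, map_mul, aeval_C, map_pow, aeval_X, algebraMap_int_eq, eq_intCast]
  rw [e, add_sub_cancel_right]
  exact h _ (eraseLead_natDegree_le f) T hT t ht

lemma sign_near (a b : ℝ) (h : |a - b| ≤ |b| / 2) (hb : b ≠ 0) : 0 < a * b := by
  have hb' := abs_pos.2 hb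
  have h1 := abs_le.1 h
  rcases lt_or_gt_of_ne hb with h2 | h2
  · rw [abs_of_neg h2] at h1 hb'
    nlinarith [h1.1, h1.2]
  · rw [abs_of_pos h2] at h1 hb'
    nlinarith [h1.1, h1.2]

lemma sign_trans (a b c : ℝ) (h1 : 0 < a * b) (h2 : 0 < b * c) : 0 < a * c := by
  have hb : b ≠ 0 := by
    rintro rfl
    simp at h1
  have h3 : 0 < (a * b) * (b * c) := mul_pos h1 h2
  have h4 : 0 < b ^ 2 := by positivity
  by_contra h5
  rw [not_lt] at h5
  nlinarith

lemma pow_diff (d : ℕ) (h : ℝ) (h0 : 0 ≤ h) (h1 : h ≤ 1) :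
    (1 + h) ^ d - 1 ≤ (2 ^ d - 1) * h ∧ 1 - (1 - h) ^ d ≤ (2 ^ d - 1) * h := by
  induction d with
  | zero => simp
  | succ d ih =>
    obtain ⟨i1, i2⟩ := ih
    have h2 : (1 : ℝ) ≤ 2 ^ d := one_le_pow₀ (by norm_num)
    constructor
    · have e : (1 + h) ^ (d + 1) - 1 = (1 + h) * ((1 + h) ^ d - 1) + h := by ring
      rw [e, pow_succ]
      have h3 : (1 + h) * ((1 + h) ^ d - 1) ≤ (1 + h) * ((2 ^ d - 1) * h) := mul_le_mul_of_nonneg_left i1 (by linarith)
      have h4 : (1 + h) * ((2 ^ d - 1) * h) ≤ 2 * ((2 ^ d - 1) * h) :=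
        mul_le_mul_of_nonneg_right (by linarith) (mul_nonneg (by linarith) h0)
      nlinarith
    · have e : 1 - (1 - h) ^ (d + 1) = (1 - h) * (1 - (1 - h) ^ d) + h := by ring
      rw [e, pow_succ]
      have h3 : (1 - h) * (1 - (1 - h) ^ d) ≤ (1 - h) * ((2 ^ d - 1) * h) := mul_le_mul_of_nonneg_left i2 (by linarith)
      have h4 : (1 - h) * ((2 ^ d - 1) * h) ≤ 1 * ((2 ^ d - 1) * h) :=
        mul_le_mul_of_nonneg_right (by linarith) (mul_nonneg (by linarith) h0)
      nlinarith

/-- the change of a power under a small dilation: the two directions -/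
lemma pow_dir (d : ℕ) (hd : 1 ≤ d) (h : ℝ) (h0 : 0 ≤ h) (h1 : h ≤ 1) (ε : ℝ) (hε : ε = 1 ∨ ε = -1) :
    h ≤ ε * ((1 + ε * h) ^ d - 1) ∧ |(1 + ε * h) ^ d - 1| ≤ 2 ^ d * h := by
  obtain ⟨p1, p2⟩ := pow_diff d h h0 h1
  rcases hε with rfl | rfl
  · rw [one_mul, one_mul]
    have h3 := one_add_mul_le_pow (a := h) (by linarith) d
    have hdr : (1 : ℝ) ≤ d := by exact_mod_cast hd
    have h4 : h ≤ (1 + h) ^ d - 1 := by nlinarith
    refine ⟨h4, ?_⟩
    rw [abs_of_nonneg (h0.trans h4)]
    nlinarith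
  · have e : (1 + -1 * h : ℝ) = 1 - h := by ring
    rw [e]
    have h3 : (1 - h) ^ d ≤ 1 - h := pow_le_of_le_one (by linarith) (by linarith) (by omega)
    refine ⟨by linarith, ?_⟩
    rw [abs_of_nonpos (by linarith)]
    nlinarith

/-- far away from the zeros -/
lemma far_val (f : ℤ[X]) (hd : 1 ≤ f.natDegree) (A : ℝ) (hA : 0 ≤ A) (hAf : ∀ T : ℝ, 1 ≤ T → ∀ t : ℝ, |t| ≤ T →
    |aeval t f - (f.leadingCoeff : ℝ) * t ^ f.natDegree| ≤ A * T ^ (f.natDegree - 1)) (B C X t : ℝ) (hB : 0 ≤ B)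
    (hC : 2 * (A + B) + 1 ≤ C) (hX : 1 ≤ X) (ht : C * X ≤ |t|) (k : ℝ) (hk : |k| ≤ B * X ^ f.natDegree) :
    |(aeval t f + k) - (f.leadingCoeff : ℝ) * t ^ f.natDegree| ≤ |(f.leadingCoeff : ℝ) * t ^ f.natDegree| / 2 ∧
      |t| ^ f.natDegree ≤ |(f.leadingCoeff : ℝ) * t ^ f.natDegree| := by
  obtain ⟨d, hdd⟩ : ∃ d, f.natDegree = d + 1 := ⟨f.natDegree - 1, by omega⟩
  have hC1 : 1 ≤ C := by linarith
  have ht1 : 1 ≤ |t| := le_trans (by nlinarith) ht
  have htX : X ≤ |t| := le_trans (by nlinarith) ht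
  have hlc : (1 : ℝ) ≤ |(f.leadingCoeff : ℝ)| := by
    have h1 : f.leadingCoeff ≠ 0 := by
      rw [Ne, leadingCoeff_eq_zero]
      rintro rfl
      simp at hd
    have h2 : 1 ≤ |f.leadingCoeff| := Int.one_le_abs h1
    exact_mod_cast h2
  have h2 : |t| ^ f.natDegree ≤ |(f.leadingCoeff : ℝ) * t ^ f.natDegree| := by
    rw [abs_mul, abs_pow]
    exact le_mul_of_one_le_left (by positivity) hlc
  refine ⟨?_, h2⟩
  have h3 := hAf |t| ht1 t le_rfl
  have e : (aeval t f + k) - (f.leadingCoeff : ℝ) * t ^ f.natDegree = (aeval t f - (f.leadingCoeff : ℝ) * t ^ f.natDegree) + k := by ring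
  rw [e]
  refine (abs_add_le _ _).trans ?_
  rw [hdd] at h3 hk h2 ⊢
  rw [Nat.add_sub_cancel] at h3
  have h4 : C * |t| ^ d ≤ |t| ^ (d + 1) := by
    rw [pow_succ, mul_comm]
    exact mul_le_mul_of_nonneg_left (le_trans (by nlinarith) ht) (by positivity)
  have h5 : C * X ^ (d + 1) ≤ |t| ^ (d + 1) := by
    rw [pow_succ, pow_succ]
    calc C * (X ^ d * X) = X ^ d * (C * X) := by ring
      _ ≤ |t| ^ d * |t| := mul_le_mul (pow_le_pow_left₀ (by linarith) htX d) ht (by positivity) (by positivity)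
  have h6 : (C - 1) * (|t| ^ d) ≤ |t| ^ (d + 1) := le_trans (mul_le_mul_of_nonneg_right (by linarith) (by positivity)) h4
  have h7 : |k| ≤ B * X ^ (d + 1) := hk
  have h8 : (0 : ℝ) ≤ |t| ^ d := by positivity
  have h9 : (0 : ℝ) ≤ X ^ (d + 1) := by positivity
  -- (A |t|^d + B X^(d+1)) C ≤ (A + B) |t|^(d+1)
  have h10 : (A * |t| ^ d + B * X ^ (d + 1)) * C ≤ (A + B) * |t| ^ (d + 1) := by
    have h11 : A * (C * |t| ^ d) ≤ A * |t| ^ (d + 1) := mul_le_mul_of_nonneg_left h4 hA
    have h12 : B * (C * X ^ (d + 1)) ≤ B * |t| ^ (d + 1) := mul_le_mul_of_nonneg_left h5 hB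
    nlinarith
  have h13 : (A + B) * |t| ^ (d + 1) ≤ C * (|t| ^ (d + 1) / 2) := by
    have : (0 : ℝ) ≤ |t| ^ (d + 1) := by positivity
    nlinarith
  have h14 : A * |t| ^ d + B * X ^ (d + 1) ≤ |t| ^ (d + 1) / 2 := by
    have h15 := h10.trans h13
    rw [mul_comm] at h15
    exact le_of_mul_le_mul_left h15 (by linarith)
  linarith

/-- moving a real point away from the zeros -/
theorem real_move {s : ℕ} (f : Fin s → ℤ[X]) (hd : ∀ j, 1 ≤ (f j).natDegree) (B : ℕ) :
    ∃ C : ℝ, 1 ≤ C ∧ ∀ δ : ℝ, 0 < δ → δ ≤ 1 → ∃ B' X0 : ℕ, 1 ≤ B' ∧ ∀ X : ℕ, X0 ≤ X → ∀ k : Fin s → ℤ,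
      (∀ j, |k j| ≤ ((B * X ^ (f j).natDegree : ℕ) : ℤ)) →
      (∀ j, δ * (X : ℝ) ^ (f j).natDegree ≤ |(k j : ℝ)|) →
      (∀ t : ℝ, |t| ≤ C * X → ∀ i j, i ≠ j → δ * (X : ℝ) ^ (f i).natDegree ≤ |PP f k i t| ∨ δ * (X : ℝ) ^ (f j).natDegree ≤ |PP f k j t|) →
      ∀ t : ℝ, (∀ j, PP f k j t ≠ 0) →
        ∃ t' : ℝ, |t'| ≤ B' * X ∧ (∀ j, (X : ℝ) ^ (f j).natDegree ≤ B' * |PP f k j t'|) ∧ ∀ j, 0 < PP f k j t' * PP f k j t := by
  have hA := fun j => lead_approx (f j) (hd j)
  choose A hA0 hA using hA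
  obtain ⟨C, hC⟩ : ∃ C : ℝ, C = 2 * (∑ j, A j + B) + 1 := ⟨_, rfl⟩
  have hAle : ∀ j, A j ≤ ∑ j, A j := fun j => single_le_sum (f := A) (fun j _ => hA0 j) (mem_univ j)
  have hAs : 0 ≤ ∑ j, A j := sum_nonneg fun j _ => hA0 j
  have hBr : (0 : ℝ) ≤ B := Nat.cast_nonneg _
  have hC1 : 1 ≤ C := by rw [hC]; linarith
  refine ⟨C, hC1, fun δ hδ hδ1 => ?_⟩
  obtain ⟨L, hL⟩ : ∃ L : ℝ, L = ∑ j, |((f j).leadingCoeff : ℝ)| * (2 * C) ^ (f j).natDegree + 1 := ⟨_, rfl⟩
  have hLj : ∀ j, |((f j).leadingCoeff : ℝ)| * (2 * C) ^ (f j).natDegree ≤ L := by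
    intro j
    have := single_le_sum (f := fun j => |((f j).leadingCoeff : ℝ)| * (2 * C) ^ (f j).natDegree)
      (fun j _ => by positivity) (mem_univ j)
    rw [hL]
    linarith
  have hL1 : 1 ≤ L := by
    have : 0 ≤ ∑ j, |((f j).leadingCoeff : ℝ)| * (2 * C) ^ (f j).natDegree := sum_nonneg fun j _ => by positivity
    rw [hL]
    linarith
  obtain ⟨h, hh⟩ : ∃ h : ℝ, h = δ / (4 * L) := ⟨_, rfl⟩
  have hh0 : 0 < h := by rw [hh]; positivity
  have hLh : L * h = δ / 4 := by rw [hh]; field_simp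
  have hh1 : h ≤ 1 := by
    have : 1 * h ≤ L * h := mul_le_mul_of_nonneg_right hL1 hh0.le
    linarith
  obtain ⟨A', hA'⟩ : ∃ A' : ℝ, A' = ∑ j, A j * (2 * C) ^ (f j).natDegree := ⟨_, rfl⟩
  have hA'j : ∀ j, A j * (2 * C) ^ (f j).natDegree ≤ A' := by
    intro j
    rw [hA']
    exact single_le_sum (f := fun j => A j * (2 * C) ^ (f j).natDegree) (fun j _ => mul_nonneg (hA0 j) (by positivity)) (mem_univ j)
  have hA'0 : 0 ≤ A' := by rw [hA']; exact sum_nonneg fun j _ => mul_nonneg (hA0 j) (by positivity)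
  obtain ⟨X0, hX0⟩ := exists_nat_gt (A' * 16 / (δ * h) + 1)
  obtain ⟨B', hB'⟩ := exists_nat_gt (2 * C + 4 / δ + 4 / (δ * h) + 2)
  have h4δ : 0 < 4 / δ := by positivity
  have h4δh : 0 < 4 / (δ * h) := by positivity
  have hB'r : (1 : ℝ) < B' := by linarith
  refine ⟨B', X0, by exact_mod_cast hB'r.le, fun X hX k hk hk2 hk3 t ht => ?_⟩
  have hXX : (X0 : ℝ) ≤ X := by exact_mod_cast hX
  have hX1 : (1 : ℝ) ≤ X := by
    have : 0 ≤ A' * 16 / (δ * h) := by positivity
    linarith
  have hkr : ∀ j, |(k j : ℝ)| ≤ B * (X : ℝ) ^ (f j).natDegree := by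
    intro j
    have h1 := hk j
    have h2 : |(k j : ℝ)| = ((|k j| : ℤ) : ℝ) := by push_cast; rfl
    rw [h2]
    have h3 : ((|k j| : ℤ) : ℝ) ≤ (((B * X ^ (f j).natDegree : ℕ) : ℤ) : ℝ) := by exact_mod_cast h1
    push_cast at h3 ⊢
    exact h3
  have hXd : ∀ j, (0 : ℝ) < (X : ℝ) ^ (f j).natDegree := fun j => by positivity
  rcases le_or_gt (|t|) (C * X) with htC | htC
  · -- bounded
    by_cases hall : ∀ j, δ / 4 * (X : ℝ) ^ (f j).natDegree ≤ |PP f k j t|
    · refine ⟨t, htC.trans (mul_le_mul_of_nonneg_right (by linarith) (by linarith)), fun j => ?_, fun j => mul_self_pos.2 (ht j)⟩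
      have h1 := hall j
      have h2 : (4 / δ) * (δ / 4 * (X : ℝ) ^ (f j).natDegree) ≤ B' * |PP f k j t| :=
        mul_le_mul (by linarith) h1 (mul_nonneg (by positivity) (hXd j).le) (by linarith)
      have e : (4 / δ) * (δ / 4 * (X : ℝ) ^ (f j).natDegree) = (X : ℝ) ^ (f j).natDegree := by field_simp
      linarith
    · push Not at hall
      obtain ⟨j0, hj0⟩ := hall
      -- the error term
      have herr : ∀ (j : Fin s) (u : ℝ), |u| ≤ 2 * C * X →
          |PP f k j u - (((f j).leadingCoeff : ℝ) * u ^ (f j).natDegree + k j)| ≤ δ * h / 16 * (X : ℝ) ^ (f j).natDegree := by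
        intro j u hu
        have h1 := hA j (2 * C * X) (by nlinarith) u hu
        have e : PP f k j u - (((f j).leadingCoeff : ℝ) * u ^ (f j).natDegree + k j) =
            aeval u (f j) - ((f j).leadingCoeff : ℝ) * u ^ (f j).natDegree := by
          unfold PP
          ring
        rw [e]
        refine h1.trans ?_
        obtain ⟨d, hdd⟩ : ∃ d, (f j).natDegree = d + 1 := ⟨(f j).natDegree - 1, by have := hd j; omega⟩
        have h2 := hA'j j
        rw [hdd] at h2 ⊢
        rw [Nat.add_sub_cancel, mul_pow]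
        have h3 : A j * (2 * C) ^ d ≤ A' := by
          refine le_trans ?_ h2
          apply mul_le_mul_of_nonneg_left _ (hA0 j)
          exact pow_le_pow_right₀ (by linarith) (by omega)
        have h4 : A' ≤ δ * h / 16 * X := by
          have h5 : A' * 16 / (δ * h) ≤ X := by linarith
          rw [div_le_iff₀ (by positivity)] at h5
          linarith
        calc A j * ((2 * C) ^ d * (X : ℝ) ^ d) = (A j * (2 * C) ^ d) * (X : ℝ) ^ d := by ring
          _ ≤ (δ * h / 16 * X) * (X : ℝ) ^ d := mul_le_mul_of_nonneg_right (h3.trans h4) (by positivity)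
          _ = _ := by rw [pow_succ]; ring
      obtain ⟨w, hw⟩ : ∃ w : ℝ, w = ((f j0).leadingCoeff : ℝ) * t ^ (f j0).natDegree := ⟨_, rfl⟩
      have htC2 : |t| ≤ 2 * C * X := by nlinarith
      have hδh : δ * h ≤ δ := by nlinarith
      have hw1 : δ / 2 * (X : ℝ) ^ (f j0).natDegree ≤ |w| := by
        have h1 := herr j0 t htC2
        rw [← hw] at h1
        have h2 := hk2 j0
        have h3 : |(k j0 : ℝ)| ≤ |w| + |PP f k j0 t| + |PP f k j0 t - (w + k j0)| := by
          have e : (k j0 : ℝ) = (-w + PP f k j0 t) + -(PP f k j0 t - (w + k j0)) := by ring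
          calc |(k j0 : ℝ)| = |(-w + PP f k j0 t) + -(PP f k j0 t - (w + k j0))| := by rw [← e]
            _ ≤ |-w + PP f k j0 t| + |-(PP f k j0 t - (w + k j0))| := abs_add_le _ _
            _ ≤ (|-w| + |PP f k j0 t|) + |-(PP f k j0 t - (w + k j0))| := by gcongr; exact abs_add_le _ _
            _ = _ := by rw [abs_neg, abs_neg]
        have h4 : δ * h / 16 * (X : ℝ) ^ (f j0).natDegree ≤ δ / 16 * (X : ℝ) ^ (f j0).natDegree :=
          mul_le_mul_of_nonneg_right (by linarith) (hXd j0).le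
        have h5 : 0 < δ * (X : ℝ) ^ (f j0).natDegree := mul_pos hδ (hXd j0)
        linarith
      have hw0 : w ≠ 0 := by
        intro h0
        rw [h0, abs_zero] at hw1
        have := mul_pos (by positivity : 0 < δ / 2) (hXd j0)
        linarith
      obtain ⟨ε, hε, hεw⟩ : ∃ ε : ℝ, (ε = 1 ∨ ε = -1) ∧ 0 < ε * w * PP f k j0 t := by
        rcases lt_or_gt_of_ne (mul_ne_zero hw0 (ht j0)) with h1 | h1
        · exact ⟨-1, Or.inr rfl, by linarith⟩
        · exact ⟨1, Or.inl rfl, by linarith⟩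
      obtain ⟨t', ht'⟩ : ∃ t' : ℝ, t' = t * (1 + ε * h) := ⟨_, rfl⟩
      have hεh : |1 + ε * h| ≤ 2 := by
        rcases hε with h1 | h1 <;> rw [h1, abs_le] <;> constructor <;> linarith
      have ht'C : |t'| ≤ 2 * C * X := by
        rw [ht', abs_mul]
        calc |t| * |1 + ε * h| ≤ (C * X) * 2 := mul_le_mul htC hεh (abs_nonneg _) (by positivity)
          _ = _ := by ring
      have hdiff : ∀ j, |PP f k j t' - (PP f k j t + ((f j).leadingCoeff : ℝ) * t ^ (f j).natDegree * ((1 + ε * h) ^ (f j).natDegree - 1))| ≤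
          δ * h / 8 * (X : ℝ) ^ (f j).natDegree := by
        intro j
        have h1 := herr j t htC2
        have h2 := herr j t' ht'C
        have e : PP f k j t' - (PP f k j t + ((f j).leadingCoeff : ℝ) * t ^ (f j).natDegree * ((1 + ε * h) ^ (f j).natDegree - 1)) =
            (PP f k j t' - (((f j).leadingCoeff : ℝ) * t' ^ (f j).natDegree + k j)) +
              -(PP f k j t - (((f j).leadingCoeff : ℝ) * t ^ (f j).natDegree + k j)) := by
          rw [ht', mul_pow]
          ring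
        rw [e]
        refine (abs_add_le _ _).trans ?_
        rw [abs_neg]
        linarith
      have hoth : ∀ j, j ≠ j0 → δ * (X : ℝ) ^ (f j).natDegree ≤ |PP f k j t| := by
        intro j hj
        rcases hk3 t htC j j0 hj with h1 | h1
        · exact h1
        · have := mul_pos hδ (hXd j0)
          linarith
      have hone : ∀ j, (X : ℝ) ^ (f j).natDegree * (δ * h / 4) ≤ |PP f k j t'| ∧ 0 < PP f k j t' * PP f k j t := by
        intro j
        by_cases hj : j = j0
        · -- the small value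
          have h1 := hdiff j
          rw [hj] at h1 ⊢
          rw [← hw] at h1
          obtain ⟨p1, p2⟩ := pow_dir (f j0).natDegree (hd j0) h hh0.le hh1 ε hε
          obtain ⟨v, hv⟩ : ∃ v : ℝ, v = (1 + ε * h) ^ (f j0).natDegree - 1 := ⟨_, rfl⟩
          rw [← hv] at h1 p1
          obtain ⟨b, hb⟩ : ∃ b, b = PP f k j0 t := ⟨_, rfl⟩
          obtain ⟨b', hb'⟩ : ∃ b', b' = PP f k j0 t' := ⟨_, rfl⟩
          obtain ⟨Y, hY⟩ : ∃ Y : ℝ, Y = (X : ℝ) ^ (f j0).natDegree := ⟨_, rfl⟩
          have hY0 : 0 < Y := by rw [hY]; exact hXd j0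
          rw [← hb] at h1 hεw
          rw [← hb'] at h1
          rw [← hY] at h1 hw1
          rw [← hb, ← hb', ← hY]
          have hvn : h ≤ |v| := by
            have h2 := le_abs_self (ε * v)
            have h3 : |ε * v| = |v| := by
              rw [abs_mul]
              rcases hε with h4 | h4 <;> rw [h4] <;> simp
            linarith
          have hwv : δ * h / 2 * Y ≤ |w * v| := by
            rw [abs_mul]
            calc δ * h / 2 * Y = (δ / 2 * Y) * h := by ring
              _ ≤ |w| * |v| := mul_le_mul hw1 hvn hh0.le (abs_nonneg _)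
          have hsgn : 0 < (w * v) * b := by
            have h2 : 0 < ε * v := lt_of_lt_of_le hh0 p1
            have h3 : 0 < (ε * v) * (ε * w * b) := mul_pos h2 hεw
            have h4 : ε * ε = 1 := by rcases hε with h4 | h4 <;> rw [h4] <;> norm_num
            have e : (ε * v) * (ε * w * b) = (ε * ε) * ((w * v) * b) := by ring
            rw [e, h4, one_mul] at h3
            exact h3
          have hδhY : 0 < δ * h * Y := by positivity
          have h5 := abs_le.1 h1
          -- sign analysis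
          rcases lt_or_ge 0 b with hb0 | hb0
          · have h6 : 0 < w * v := by
              by_contra h7
              have := mul_nonpos_of_nonpos_of_nonneg (not_lt.1 h7) hb0.le
              linarith
            rw [abs_of_pos h6] at hwv
            have h7 : Y * (δ * h / 4) ≤ b' := by linarith [h5.1, h5.2]
            have h8 : 0 < b' := lt_of_lt_of_le (by positivity) h7
            exact ⟨by rw [abs_of_pos h8]; exact h7, mul_pos h8 hb0⟩
          · have hb1 : b < 0 := lt_of_le_of_ne hb0 (by rw [hb]; exact ht j0)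
            have h6 : w * v < 0 := by
              by_contra h7
              have := mul_nonpos_of_nonneg_of_nonpos (not_lt.1 h7) hb1.le
              linarith
            rw [abs_of_neg h6] at hwv
            have h7 : Y * (δ * h / 4) ≤ -b' := by linarith [h5.1, h5.2]
            have h8 : b' < 0 := by
              have : 0 < Y * (δ * h / 4) := by positivity
              linarith
            exact ⟨by rw [abs_of_neg h8]; exact h7, mul_pos_of_neg_of_neg h8 hb1⟩
        · have h1 := hdiff j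
          have h2 := hoth j hj
          obtain ⟨p1, p2⟩ := pow_dir (f j).natDegree (hd j) h hh0.le hh1 ε hε
          have h3 : |((f j).leadingCoeff : ℝ) * t ^ (f j).natDegree * ((1 + ε * h) ^ (f j).natDegree - 1)| ≤ δ / 4 * (X : ℝ) ^ (f j).natDegree := by
            rw [abs_mul, abs_mul, abs_pow]
            calc |((f j).leadingCoeff : ℝ)| * |t| ^ (f j).natDegree * |(1 + ε * h) ^ (f j).natDegree - 1|
                ≤ |((f j).leadingCoeff : ℝ)| * (C * X) ^ (f j).natDegree * (2 ^ (f j).natDegree * h) := by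
                  apply mul_le_mul _ p2 (abs_nonneg _) (by positivity)
                  apply mul_le_mul_of_nonneg_left _ (abs_nonneg _)
                  exact pow_le_pow_left₀ (abs_nonneg _) htC _
              _ = (|((f j).leadingCoeff : ℝ)| * (2 * C) ^ (f j).natDegree) * h * (X : ℝ) ^ (f j).natDegree := by
                  rw [mul_pow, mul_pow]
                  ring
              _ ≤ L * h * (X : ℝ) ^ (f j).natDegree := by
                  apply mul_le_mul_of_nonneg_right _ (hXd j).le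
                  exact mul_le_mul_of_nonneg_right (hLj j) hh0.le
              _ = _ := by rw [hLh]
          have h4 : |PP f k j t' - PP f k j t| ≤ |PP f k j t| / 2 := by
            have e : PP f k j t' - PP f k j t = (PP f k j t' - (PP f k j t + ((f j).leadingCoeff : ℝ) * t ^ (f j).natDegree * ((1 + ε * h) ^ (f j).natDegree - 1))) +
              ((f j).leadingCoeff : ℝ) * t ^ (f j).natDegree * ((1 + ε * h) ^ (f j).natDegree - 1) := by ring
            rw [e]
            refine (abs_add_le _ _).trans ?_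
            have h5 : δ * h / 8 * (X : ℝ) ^ (f j).natDegree ≤ δ / 8 * (X : ℝ) ^ (f j).natDegree :=
              mul_le_mul_of_nonneg_right (by linarith) (hXd j).le
            have h6 := mul_pos hδ (hXd j)
            linarith
          have h5 : |PP f k j t| / 2 ≤ |PP f k j t'| := by
            have h6 : |PP f k j t| ≤ |PP f k j t' - PP f k j t| + |PP f k j t'| := by
              have h7 := abs_add_le (-(PP f k j t' - PP f k j t)) (PP f k j t')
              rw [abs_neg] at h7
              have e : -(PP f k j t' - PP f k j t) + PP f k j t' = PP f k j t := by ring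
              rw [e] at h7
              exact h7
            linarith
          refine ⟨?_, sign_near _ _ h4 (ht j)⟩
          refine le_trans ?_ h5
          have h6 : (X : ℝ) ^ (f j).natDegree * (δ * h / 4) ≤ (X : ℝ) ^ (f j).natDegree * (δ / 4) :=
            mul_le_mul_of_nonneg_left (by linarith) (hXd j).le
          have h7 := mul_pos hδ (hXd j)
          nlinarith
      refine ⟨t', ht'C.trans (mul_le_mul_of_nonneg_right (by linarith) (by linarith)), fun j => ?_, fun j => (hone j).2⟩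
      have h1 := (hone j).1
      have h2 : (4 / (δ * h)) * ((X : ℝ) ^ (f j).natDegree * (δ * h / 4)) ≤ B' * |PP f k j t'| :=
        mul_le_mul (by linarith) h1 (mul_nonneg (hXd j).le (by positivity)) (by linarith)
      have e : (4 / (δ * h)) * ((X : ℝ) ^ (f j).natDegree * (δ * h / 4)) = (X : ℝ) ^ (f j).natDegree := by
        field_simp
      linarith
  · -- far away
    have hCX0 : 0 < C * X := by positivity
    obtain ⟨t', ht'1, ht'2⟩ : ∃ t' : ℝ, |t'| = C * X ∧ 0 < t' * t := by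
      have ht0 : t ≠ 0 := by
        rintro rfl
        rw [abs_zero] at htC
        linarith
      rcases lt_or_gt_of_ne ht0 with h1 | h1
      · exact ⟨-(C * X), by rw [abs_neg, abs_of_pos hCX0], mul_pos_of_neg_of_neg (by linarith) h1⟩
      · exact ⟨C * X, abs_of_pos hCX0, mul_pos hCX0 h1⟩
    have hCj : ∀ j, 2 * (A j + B) + 1 ≤ C := fun j => by rw [hC]; linarith [hAle j]
    refine ⟨t', ?_, fun j => ?_, fun j => ?_⟩
    · rw [ht'1]
      exact mul_le_mul_of_nonneg_right (by linarith) (by linarith)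
    · obtain ⟨h1, h2⟩ := far_val (f j) (hd j) (A j) (hA0 j) (hA j) B C X t' hBr (hCj j) hX1 ht'1.ge (k j) (hkr j)
      obtain ⟨w, hw⟩ : ∃ w, w = ((f j).leadingCoeff : ℝ) * t' ^ (f j).natDegree := ⟨_, rfl⟩
      rw [← hw] at h1 h2
      have h1' : |PP f k j t' - w| ≤ |w| / 2 := h1
      have h3 : |w| / 2 ≤ |PP f k j t'| := by
        have h7 := abs_add_le (-(PP f k j t' - w)) (PP f k j t')
        rw [abs_neg] at h7
        have e : -(PP f k j t' - w) + PP f k j t' = w := by ring
        rw [e] at h7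
        linarith
      have h4 : (X : ℝ) ^ (f j).natDegree ≤ |t'| ^ (f j).natDegree := by
        apply pow_le_pow_left₀ (by linarith)
        rw [ht'1]
        nlinarith
      have h5 : 2 * (|w| / 2) ≤ B' * |PP f k j t'| := mul_le_mul (by linarith) h3 (by positivity) (by linarith)
      linarith
    · obtain ⟨h1, h2⟩ := far_val (f j) (hd j) (A j) (hA0 j) (hA j) B C X t' hBr (hCj j) hX1 ht'1.ge (k j) (hkr j)
      obtain ⟨h1', h2'⟩ := far_val (f j) (hd j) (A j) (hA0 j) (hA j) B C X t hBr (hCj j) hX1 htC.le (k j) (hkr j)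
      have hne : ∀ u : ℝ, 1 ≤ |u| → |u| ^ (f j).natDegree ≤ |((f j).leadingCoeff : ℝ) * u ^ (f j).natDegree| →
          ((f j).leadingCoeff : ℝ) * u ^ (f j).natDegree ≠ 0 := by
        intro u hu h3 h4
        rw [h4, abs_zero] at h3
        have := one_le_pow₀ hu (n := (f j).natDegree)
        linarith
      have hX2 : 1 ≤ C * X := by nlinarith
      have n1 := hne t' (by rw [ht'1]; exact hX2) h2
      have n2 := hne t (hX2.trans htC.le) h2'
      have s1 := sign_near _ _ h1 n1
      have s2 := sign_near _ _ h1' n2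
      have s3 : 0 < (((f j).leadingCoeff : ℝ) * t' ^ (f j).natDegree) * (((f j).leadingCoeff : ℝ) * t ^ (f j).natDegree) := by
        have hl : ((f j).leadingCoeff : ℝ) ≠ 0 := fun h0 => n1 (by rw [h0, zero_mul])
        have e : (((f j).leadingCoeff : ℝ) * t' ^ (f j).natDegree) * (((f j).leadingCoeff : ℝ) * t ^ (f j).natDegree) =
            ((f j).leadingCoeff : ℝ) ^ 2 * (t' * t) ^ (f j).natDegree := by
          rw [mul_pow]
          ring
        rw [e]
        exact mul_pos (by positivity) (pow_pos ht'2 _)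
      rw [mul_comm] at s2
      exact sign_trans _ _ _ s1 (sign_trans _ _ _ s3 s2)

end Pool.Agent.U637.OP
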