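import Pool.Agent.U637.OP.P3
import Pool.Agent.R479.NF.Sv0

/-!
# Moving a real point away from the zeros: the count
-/

set_option autoImplicit false
set_option linter.unusedVariables false

namespace Pool.Agent.U637.OP

open Finset Polynomial Filter Topology
open Pool.Agent.Y714.RC (PP)

/-- short intervals for some of the coordinates -/
lemma count_int {s : ℕ} (H : Fin s → ℕ) (J : Finset (Fin s)) (x r : Fin s → ℝ) (hr : ∀ j, 0 ≤ r j) :
    (#((Fintype.piFinset fun j : Fin s => Icc (-(H j : ℤ)) (H j)).filter (fun k => ∀ j ∈ J, |(k j : ℝ) + x j| ≤ r j)) : ℝ) ≤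
      ∏ j, (if j ∈ J then 2 * r j + 1 else 2 * (H j : ℝ) + 1) := by
  classical
  have h1 : (Fintype.piFinset fun j : Fin s => Icc (-(H j : ℤ)) (H j)).filter (fun k => ∀ j ∈ J, |(k j : ℝ) + x j| ≤ r j) ⊆
      Fintype.piFinset fun j : Fin s => if j ∈ J then Icc ⌈-x j - r j⌉ ⌊-x j + r j⌋ else Icc (-(H j : ℤ)) (H j) := by
    intro k hk
    rw [mem_filter, Fintype.mem_piFinset] at hk
    rw [Fintype.mem_piFinset]
    intro j
    by_cases hj : j ∈ J
    · rw [if_pos hj, mem_Icc, Int.ceil_le, Int.le_floor]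
      have := abs_le.1 (hk.2 j hj)
      constructor <;> linarith [this.1, this.2]
    · rw [if_neg hj]
      exact hk.1 j
  refine (by exact_mod_cast card_le_card h1 : (#((Fintype.piFinset fun j : Fin s => Icc (-(H j : ℤ)) (H j)).filter
    (fun k => ∀ j ∈ J, |(k j : ℝ) + x j| ≤ r j)) : ℝ) ≤ (#(Fintype.piFinset fun j : Fin s => if j ∈ J then
      Icc ⌈-x j - r j⌉ ⌊-x j + r j⌋ else Icc (-(H j : ℤ)) (H j)) : ℝ)).trans ?_
  rw [Fintype.card_piFinset]
  push_cast
  apply Finset.prod_le_prod (fun j _ => by positivity)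
  intro j _
  by_cases hj : j ∈ J
  · rw [if_pos hj, if_pos hj, Int.card_Icc]
    have h2 : ((⌊-x j + r j⌋ + 1 - ⌈-x j - r j⌉ : ℤ) : ℝ) ≤ 2 * r j + 1 := by
      push_cast
      linarith [Int.floor_le (-x j + r j), Int.le_ceil (-x j - r j)]
    rcases le_total 0 (⌊-x j + r j⌋ + 1 - ⌈-x j - r j⌉) with h3 | h3
    · have e : ((⌊-x j + r j⌋ + 1 - ⌈-x j - r j⌉).toNat : ℝ) = ((⌊-x j + r j⌋ + 1 - ⌈-x j - r j⌉ : ℤ) : ℝ) := by
        exact_mod_cast Int.toNat_of_nonneg h3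
      rw [e]
      exact h2
    · rw [Int.toNat_of_nonpos h3, Nat.cast_zero]
      linarith [hr j]
  · rw [if_neg hj, if_neg hj, Int.card_Icc]
    have e : (((H j : ℤ) + 1 - -(H j : ℤ)).toNat : ℝ) = 2 * (H j : ℝ) + 1 := by
      have h3 : (((H j : ℤ) + 1 - -(H j : ℤ)).toNat : ℤ) = 2 * (H j : ℤ) + 1 := by
        rw [Int.toNat_of_nonneg (by omega)]
        ring
      exact_mod_cast h3
    rw [e]

/-- the same at the natural scale -/
lemma count_int' {s : ℕ} (f : Fin s → ℤ[X]) (B X : ℕ) (hB : 1 ≤ B) (hX : 1 ≤ X) (J : Finset (Fin s)) (x : Fin s → ℝ) (ω : ℝ)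
    (hω : 0 ≤ ω) (hωX : ∀ j, 1 ≤ ω * (X : ℝ) ^ (f j).natDegree) :
    (#((Pool.Agent.R479.NF.box f B X).filter (fun k => ∀ j ∈ J, |(k j : ℝ) + x j| ≤ ω * (X : ℝ) ^ (f j).natDegree)) : ℝ) ≤
      (3 * ω) ^ #J * ((3 * B) ^ s * ∏ j, (X : ℝ) ^ (f j).natDegree) := by
  classical
  have hXr : (1 : ℝ) ≤ X := by exact_mod_cast hX
  have hBr : (1 : ℝ) ≤ B := by exact_mod_cast hB
  have h1 := count_int (fun j => B * X ^ (f j).natDegree) J x (fun j => ω * (X : ℝ) ^ (f j).natDegree) (fun j => by positivity)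
  refine (le_of_eq ?_).trans (h1.trans ?_)
  · rfl
  · have e1 : (3 * ω) ^ #J = ∏ j : Fin s, (if j ∈ J then 3 * ω else 1) := by
      rw [prod_ite_mem, univ_inter, prod_const]
    have e2 : ((3 : ℝ) * B) ^ s = ∏ _j : Fin s, ((3 : ℝ) * B) := by rw [prod_const, card_univ, Fintype.card_fin]
    rw [e1, e2, ← prod_mul_distrib, ← prod_mul_distrib]
    apply Finset.prod_le_prod
    · intro j _
      split_ifs <;> positivity
    · intro j _
      have hX1 : (1 : ℝ) ≤ (X : ℝ) ^ (f j).natDegree := one_le_pow₀ hXr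
      by_cases hj : j ∈ J
      · rw [if_pos hj, if_pos hj]
        have h2 := hωX j
        have h3 : 2 * (ω * (X : ℝ) ^ (f j).natDegree) + 1 ≤ 3 * (ω * (X : ℝ) ^ (f j).natDegree) := by linarith
        refine h3.trans ?_
        have h4 : 3 * (ω * (X : ℝ) ^ (f j).natDegree) * 1 ≤ 3 * (ω * (X : ℝ) ^ (f j).natDegree) * (3 * B) :=
          mul_le_mul_of_nonneg_left (by linarith) (by positivity)
        calc 3 * (ω * (X : ℝ) ^ (f j).natDegree) = 3 * (ω * (X : ℝ) ^ (f j).natDegree) * 1 := by ring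
          _ ≤ _ := h4
          _ = _ := by ring
      · rw [if_neg hj, if_neg hj, one_mul]
        push_cast
        have h5 : (1 : ℝ) ≤ B * (X : ℝ) ^ (f j).natDegree := by
          calc (1 : ℝ) = 1 * 1 := by ring
            _ ≤ B * (X : ℝ) ^ (f j).natDegree := mul_le_mul hBr hX1 zero_le_one (by linarith)
        linarith

lemma lipR (f : ℤ[X]) : ∃ L : ℝ, 0 ≤ L ∧ ∀ T : ℝ, 1 ≤ T → ∀ t t' : ℝ, |t| ≤ T → |t'| ≤ T →
    |aeval t f - aeval t' f| ≤ L * T ^ (f.natDegree - 1) * |t - t'| := by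
  refine ⟨∑ i ∈ range (f.natDegree + 1), |(f.coeff i : ℝ)| * i, sum_nonneg fun _ _ => by positivity, fun T hT t t' ht ht' => ?_⟩
  rw [aeval_eq_sum_range, aeval_eq_sum_range, ← sum_sub_distrib, sum_mul, sum_mul]
  refine (abs_sum_le_sum_abs _ _).trans (sum_le_sum fun i hi => ?_)
  rw [mem_range] at hi
  rw [zsmul_eq_mul, zsmul_eq_mul, ← mul_sub, abs_mul]
  have h1 := abs_pow_sub_pow_le t t' i
  have h2 : max |t| |t'| ^ (i - 1) ≤ T ^ (f.natDegree - 1) :=
    (pow_le_pow_left₀ (le_max_of_le_left (abs_nonneg _)) (max_le ht ht') _).trans (pow_le_pow_right₀ hT (by omega))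
  have h3 : |t ^ i - t' ^ i| ≤ |t - t'| * i * T ^ (f.natDegree - 1) :=
    h1.trans (mul_le_mul_of_nonneg_left h2 (by positivity))
  calc |(f.coeff i : ℝ)| * |t ^ i - t' ^ i| ≤ |(f.coeff i : ℝ)| * (|t - t'| * i * T ^ (f.natDegree - 1)) :=
        mul_le_mul_of_nonneg_left h3 (abs_nonneg _)
    _ = _ := by ring

open Classical in
/-- the real points have a bounded level outside of a small set -/
lemma densR {s : ℕ} (f : Fin s → ℤ[X]) (hd : ∀ j, 1 ≤ (f j).natDegree) (B : ℕ) (hB : 1 ≤ B) (η : ℝ) (hη : 0 < η) :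
    ∃ B' X0 : ℕ, 1 ≤ B' ∧ ∀ X : ℕ, X0 ≤ X →
      (#((Pool.Agent.R479.NF.box f B X).filter (fun k => ∃ t : ℝ, (∀ j, PP f k j t ≠ 0) ∧
        ¬ ∃ t' : ℝ, |t'| ≤ B' * X ∧ (∀ j, (X : ℝ) ^ (f j).natDegree ≤ B' * |PP f k j t'|) ∧
          ∀ j, 0 < PP f k j t' * PP f k j t)) : ℝ) ≤ η * ∏ j, (X : ℝ) ^ (f j).natDegree := by
  obtain ⟨C, hC1, hC⟩ := real_move f hd B
  have hLip := fun j => lipR (f j)
  choose L hL0 hL using hLip
  obtain ⟨L', hL'⟩ : ∃ L' : ℝ, L' = ∑ j, L j * (C + 1) ^ (f j).natDegree := ⟨_, rfl⟩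
  have hL'0 : 0 ≤ L' := by rw [hL']; exact sum_nonneg fun j _ => mul_nonneg (hL0 j) (by positivity)
  have hL'j : ∀ j, L j * (C + 1) ^ (f j).natDegree ≤ L' := by
    intro j
    rw [hL']
    exact single_le_sum (f := fun j => L j * (C + 1) ^ (f j).natDegree) (fun j _ => mul_nonneg (hL0 j) (by positivity)) (mem_univ j)
  obtain ⟨G, hG⟩ : ∃ G : ℝ, G = (3 * B) ^ s * (3 * s + 9 * s ^ 2 * (2 * C + 5) * (1 + L') ^ 2) + 1 := ⟨_, rfl⟩
  have hG1 : 1 ≤ G := by
    rw [hG]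
    have : 0 ≤ ((3 : ℝ) * B) ^ s * (3 * s + 9 * s ^ 2 * (2 * C + 5) * (1 + L') ^ 2) := by positivity
    linarith
  obtain ⟨δ, hδ⟩ : ∃ δ : ℝ, δ = min 1 (η / G) := ⟨_, rfl⟩
  have hδ0 : 0 < δ := by rw [hδ]; exact lt_min one_pos (by positivity)
  have hδ1 : δ ≤ 1 := by rw [hδ]; exact min_le_left _ _
  have hδη : δ * G ≤ η := by
    have h1 : δ ≤ η / G := by rw [hδ]; exact min_le_right _ _
    rwa [le_div_iff₀ (by linarith)] at h1
  obtain ⟨B', X0, hB', hmove⟩ := hC δ hδ0 hδ1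
  obtain ⟨X1, hX1⟩ := exists_nat_gt (1 / δ + 1)
  obtain ⟨ω, hω⟩ : ∃ ω : ℝ, ω = (1 + L') * δ := ⟨_, rfl⟩
  have hωδ : δ ≤ ω := by rw [hω]; nlinarith
  obtain ⟨g, hg⟩ : ∃ g : ℕ, g = ⌈C / δ⌉₊ + 1 := ⟨_, rfl⟩
  have hgr : (g : ℝ) ≤ C / δ + 2 := by
    rw [hg]
    push_cast
    linarith [Nat.ceil_lt_add_one (by positivity : 0 ≤ C / δ)]
  have hgl : C / δ + 1 ≤ g := by
    rw [hg]
    push_cast
    linarith [Nat.le_ceil (C / δ)]
  refine ⟨B', max X0 X1, hB', fun X hX => ?_⟩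
  have hXX : (X1 : ℝ) ≤ X := by exact_mod_cast (le_max_right _ _).trans hX
  have hδi : 0 < 1 / δ := by positivity
  have hX1r : (1 : ℝ) ≤ X := by linarith
  have hX1n : 1 ≤ X := by exact_mod_cast hX1r
  have hδX : 1 ≤ δ * X := by
    have h1 : 1 / δ ≤ X := by linarith
    rw [div_le_iff₀ hδ0] at h1
    linarith
  have hδXd : ∀ j, 1 ≤ δ * (X : ℝ) ^ (f j).natDegree := by
    intro j
    have h1 : (X : ℝ) ≤ (X : ℝ) ^ (f j).natDegree := le_self_pow₀ hX1r (by have := hd j; omega)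
    exact hδX.trans (mul_le_mul_of_nonneg_left h1 hδ0.le)
  have hωXd : ∀ j, 1 ≤ ω * (X : ℝ) ^ (f j).natDegree := fun j =>
    (hδXd j).trans (mul_le_mul_of_nonneg_right hωδ (by positivity))
  obtain ⟨E1, hE1⟩ : ∃ E1 : Fin s → Finset (Fin s → ℤ), E1 = fun i => (Pool.Agent.R479.NF.box f B X).filter
    (fun k => ∀ j ∈ ({i} : Finset (Fin s)), |(k j : ℝ) + (fun _ => (0 : ℝ)) j| ≤ δ * (X : ℝ) ^ (f j).natDegree) := ⟨_, rfl⟩
  obtain ⟨E2, hE2⟩ : ∃ E2 : Fin s × Fin s → ℤ → Finset (Fin s → ℤ), E2 = fun (x : Fin s × Fin s) (a : ℤ) => (Pool.Agent.R479.NF.box f B X).filter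
    (fun k => ∀ j ∈ ({x.1, x.2} : Finset (Fin s)), |(k j : ℝ) + (fun j => aeval ((a : ℝ) * (δ * X)) (f j)) j| ≤
      ω * (X : ℝ) ^ (f j).natDegree) := ⟨_, rfl⟩
  obtain ⟨Y, hY⟩ : ∃ Y : ℝ, Y = (3 * B) ^ s * ∏ j, (X : ℝ) ^ (f j).natDegree := ⟨_, rfl⟩
  have hY0 : 0 ≤ Y := by rw [hY]; exact mul_nonneg (by positivity) (prod_nonneg fun j _ => by positivity)
  have hc1 : ∀ i, (#(E1 i) : ℝ) ≤ (3 * δ) * Y := by
    intro i
    have h1 := count_int' f B X hB hX1n {i} (fun _ => (0 : ℝ)) δ hδ0.le hδXd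
    rw [card_singleton, pow_one, ← hY] at h1
    rw [hE1]
    exact h1
  have hc2 : ∀ (x : Fin s × Fin s) (a : ℤ), x.1 ≠ x.2 → (#(E2 x a) : ℝ) ≤ (3 * ω) ^ 2 * Y := by
    intro x a hx
    have h1 := count_int' f B X hB hX1n {x.1, x.2} (fun j => aeval ((a : ℝ) * (δ * X)) (f j)) ω (hδ0.le.trans hωδ) hωXd
    rw [card_pair hx, ← hY] at h1
    rw [hE2]
    exact h1
  have hsub : (Pool.Agent.R479.NF.box f B X).filter (fun k => ∃ t : ℝ, (∀ j, PP f k j t ≠ 0) ∧
        ¬ ∃ t' : ℝ, |t'| ≤ B' * X ∧ (∀ j, (X : ℝ) ^ (f j).natDegree ≤ B' * |PP f k j t'|) ∧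
          ∀ j, 0 < PP f k j t' * PP f k j t) ⊆
      (univ.biUnion E1) ∪ ((univ.filter fun x : Fin s × Fin s => x.1 ≠ x.2).biUnion fun x => (Icc (-(g : ℤ)) g).biUnion fun a => E2 x a) := by
    intro k hk
    rw [mem_filter] at hk
    obtain ⟨hkX, t, ht, hk2⟩ := hk
    by_contra hcon
    rw [mem_union, not_or] at hcon
    apply hk2
    refine hmove X ((le_max_left _ _).trans hX) k (fun j => ?_) (fun j => ?_) (fun t ht i j hij => ?_) t ht
    · have h1 := Fintype.mem_piFinset.1 hkX j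
      exact abs_le.2 (mem_Icc.1 h1)
    · by_contra h1
      apply hcon.1
      rw [mem_biUnion]
      refine ⟨j, mem_univ j, ?_⟩
      rw [hE1]
      refine mem_filter.2 ⟨hkX, fun j' hj' => ?_⟩
      rw [mem_singleton] at hj'
      rw [hj', add_zero]
      exact (not_le.1 h1).le
    · by_contra h1
      rw [not_or, not_le, not_le] at h1
      apply hcon.2
      rw [mem_biUnion]
      refine ⟨(i, j), mem_filter.2 ⟨mem_univ _, hij⟩, ?_⟩
      obtain ⟨a, ha⟩ : ∃ a : ℤ, a = ⌊t / (δ * X)⌋ := ⟨_, rfl⟩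
      have hδX0 : 0 < δ * X := by linarith
      have ha1 : (a : ℝ) * (δ * X) ≤ t := by
        rw [← le_div_iff₀ hδX0, ha]
        exact Int.floor_le _
      have ha2 : t ≤ (a : ℝ) * (δ * X) + δ * X := by
        have h2 := (Int.lt_floor_add_one (t / (δ * X))).le
        rw [← ha, div_le_iff₀ hδX0] at h2
        linarith
      have hta : |t - (a : ℝ) * (δ * X)| ≤ δ * X := by
        rw [abs_le]
        constructor <;> linarith
      have hat : |(a : ℝ) * (δ * X)| ≤ (C + 1) * X := by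
        have e : (a : ℝ) * (δ * X) = t + -(t - (a : ℝ) * (δ * X)) := by ring
        rw [e]
        refine (abs_add_le _ _).trans ?_
        rw [abs_neg]
        have : δ * X ≤ 1 * X := mul_le_mul_of_nonneg_right hδ1 (by linarith)
        linarith
      rw [mem_biUnion]
      refine ⟨a, ?_, ?_⟩
      · have h2 : |(a : ℝ)| ≤ g := by
          have h3 : |(a : ℝ)| * (δ * X) ≤ (C + δ) * X := by
            rw [← abs_of_pos hδX0, ← abs_mul]
            have e : (a : ℝ) * (δ * X) = t + -(t - (a : ℝ) * (δ * X)) := by ring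
            rw [e]
            refine (abs_add_le _ _).trans ?_
            rw [abs_neg]
            linarith
          have h4 : |(a : ℝ)| * δ ≤ C + δ := by
            have h5 : (|(a : ℝ)| * δ) * X ≤ (C + δ) * X := by linarith
            exact le_of_mul_le_mul_right h5 (by linarith)
          have h5 : |(a : ℝ)| ≤ (C + δ) / δ := by
            rw [le_div_iff₀ hδ0]
            exact h4
          have e : (C + δ) / δ = C / δ + 1 := by field_simp
          linarith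
        have h3 : |a| ≤ (g : ℤ) := by exact_mod_cast h2
        exact mem_Icc.2 (abs_le.1 h3)
      · rw [hE2]
        refine mem_filter.2 ⟨hkX, fun j' hj' => ?_⟩
        have h2 : |PP f k j' t| < δ * (X : ℝ) ^ (f j').natDegree := by
          rw [mem_insert, mem_singleton] at hj'
          rcases hj' with h | h
          · rw [h]
            exact h1.1
          · rw [h]
            exact h1.2
        have h3 := hL j' ((C + 1) * X) (by nlinarith) t ((a : ℝ) * (δ * X)) (by nlinarith) hat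
        have h4 : L j' * ((C + 1) * X) ^ ((f j').natDegree - 1) * |t - (a : ℝ) * (δ * X)| ≤ L' * δ * (X : ℝ) ^ (f j').natDegree := by
          obtain ⟨d, hdd⟩ : ∃ d, (f j').natDegree = d + 1 := ⟨(f j').natDegree - 1, by have := hd j'; omega⟩
          have h5 := hL'j j'
          rw [hdd] at h5 ⊢
          rw [Nat.add_sub_cancel, mul_pow]
          have h6 : L j' * (C + 1) ^ d ≤ L' := by
            refine le_trans ?_ h5
            apply mul_le_mul_of_nonneg_left _ (hL0 j')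
            exact pow_le_pow_right₀ (by linarith) (by omega)
          have h7 : 0 ≤ L j' := hL0 j'
          calc L j' * ((C + 1) ^ d * (X : ℝ) ^ d) * |t - (a : ℝ) * (δ * X)| ≤ L j' * ((C + 1) ^ d * (X : ℝ) ^ d) * (δ * X) := by
                apply mul_le_mul_of_nonneg_left hta
                positivity
            _ = (L j' * (C + 1) ^ d) * (δ * (X : ℝ) ^ (d + 1)) := by rw [pow_succ]; ring
            _ ≤ L' * (δ * (X : ℝ) ^ (d + 1)) := mul_le_mul_of_nonneg_right h6 (by positivity)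
            _ = _ := by ring
        have e : (k j' : ℝ) + (fun j => aeval ((a : ℝ) * (δ * X)) (f j)) j' = PP f k j' t +
            -(aeval t (f j') - aeval ((a : ℝ) * (δ * X)) (f j')) := by
          unfold PP
          ring
        rw [e]
        refine (abs_add_le _ _).trans ?_
        rw [abs_neg, hω]
        have h5 := h3.trans h4
        linarith
  have h1 : (#((Pool.Agent.R479.NF.box f B X).filter (fun k => ∃ t : ℝ, (∀ j, PP f k j t ≠ 0) ∧
        ¬ ∃ t' : ℝ, |t'| ≤ B' * X ∧ (∀ j, (X : ℝ) ^ (f j).natDegree ≤ B' * |PP f k j t'|) ∧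
          ∀ j, 0 < PP f k j t' * PP f k j t)) : ℝ) ≤ s * ((3 * δ) * Y) + (s : ℝ) ^ 2 * ((2 * g + 1) * ((3 * ω) ^ 2 * Y)) := by
    refine (by exact_mod_cast (card_le_card hsub).trans (card_union_le _ _) : (#((Pool.Agent.R479.NF.box f B X).filter (fun k => ∃ t : ℝ, (∀ j, PP f k j t ≠ 0) ∧
        ¬ ∃ t' : ℝ, |t'| ≤ B' * X ∧ (∀ j, (X : ℝ) ^ (f j).natDegree ≤ B' * |PP f k j t'|) ∧
          ∀ j, 0 < PP f k j t' * PP f k j t)) : ℝ) ≤ (#(univ.biUnion E1) : ℝ) +
      (#((univ.filter fun x : Fin s × Fin s => x.1 ≠ x.2).biUnion fun x => (Icc (-(g : ℤ)) g).biUnion fun a => E2 x a) : ℝ)).trans ?_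
    apply add_le_add
    · calc (#(univ.biUnion E1) : ℝ) ≤ ∑ j, (#(E1 j) : ℝ) := by exact_mod_cast card_biUnion_le
        _ ≤ ∑ _j : Fin s, (3 * δ) * Y := sum_le_sum fun j _ => hc1 j
        _ = _ := by rw [sum_const, nsmul_eq_mul, card_univ, Fintype.card_fin]
    · calc (#((univ.filter fun x : Fin s × Fin s => x.1 ≠ x.2).biUnion fun x => (Icc (-(g : ℤ)) g).biUnion fun a => E2 x a) : ℝ)
          ≤ ∑ x ∈ univ.filter (fun x : Fin s × Fin s => x.1 ≠ x.2), ∑ a ∈ Icc (-(g : ℤ)) g, (#(E2 x a) : ℝ) := by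
            exact_mod_cast card_biUnion_le.trans (sum_le_sum fun j _ => card_biUnion_le)
        _ ≤ ∑ x ∈ univ.filter (fun x : Fin s × Fin s => x.1 ≠ x.2), ∑ a ∈ Icc (-(g : ℤ)) g, (3 * ω) ^ 2 * Y :=
            sum_le_sum fun x hx => sum_le_sum fun a _ => hc2 x a (mem_filter.1 hx).2
        _ = #(univ.filter (fun x : Fin s × Fin s => x.1 ≠ x.2)) * ((2 * g + 1) * ((3 * ω) ^ 2 * Y)) := by
            rw [sum_const, sum_const, nsmul_eq_mul, nsmul_eq_mul, Int.card_Icc]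
            have e : (((g : ℤ) + 1 - -(g : ℤ)).toNat : ℝ) = 2 * (g : ℝ) + 1 := by
              have h3 : (((g : ℤ) + 1 - -(g : ℤ)).toNat : ℤ) = 2 * (g : ℤ) + 1 := by
                rw [Int.toNat_of_nonneg (by omega)]
                ring
              exact_mod_cast h3
            rw [e]
        _ ≤ _ := by
            apply mul_le_mul_of_nonneg_right _ (by positivity)
            have h2 := card_filter_le (univ : Finset (Fin s × Fin s)) (fun x => x.1 ≠ x.2)
            rw [card_univ, Fintype.card_prod, Fintype.card_fin] at h2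
            rw [pow_two]
            exact_mod_cast h2
  refine h1.trans ?_
  have h2 : (2 * (g : ℝ) + 1) * ((3 * ω) ^ 2 * Y) ≤ (9 * (2 * C + 5) * (1 + L') ^ 2) * (δ * Y) := by
    have h3 : 2 * (g : ℝ) + 1 ≤ (2 * C + 5) / δ := by
      rw [le_div_iff₀ hδ0]
      have h4 : (g : ℝ) * δ ≤ (C / δ + 2) * δ := mul_le_mul_of_nonneg_right hgr hδ0.le
      have e : (C / δ + 2) * δ = C + 2 * δ := by field_simp
      rw [e] at h4
      nlinarith
    calc (2 * (g : ℝ) + 1) * ((3 * ω) ^ 2 * Y) ≤ ((2 * C + 5) / δ) * ((3 * ω) ^ 2 * Y) :=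
          mul_le_mul_of_nonneg_right h3 (by positivity)
      _ = _ := by
          rw [hω]
          field_simp
          ring
  calc s * ((3 * δ) * Y) + (s : ℝ) ^ 2 * ((2 * g + 1) * ((3 * ω) ^ 2 * Y))
      ≤ s * ((3 * δ) * Y) + (s : ℝ) ^ 2 * ((9 * (2 * C + 5) * (1 + L') ^ 2) * (δ * Y)) := by
        have := mul_le_mul_of_nonneg_left h2 (by positivity : (0 : ℝ) ≤ (s : ℝ) ^ 2)
        linarith
    _ = (δ * (G - 1)) * ∏ j, (X : ℝ) ^ (f j).natDegree := by
        rw [hG, hY]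
        ring
    _ ≤ η * ∏ j, (X : ℝ) ^ (f j).natDegree := by
        apply mul_le_mul_of_nonneg_right _ (prod_nonneg fun j _ => by positivity)
        nlinarith

end Pool.Agent.U637.OP
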