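import Pool.Agent.U637.OP.P2
import Pool.Agent.U637.OP.P4
import Pool.Agent.R479.NF.Sx4
import Pool.Agent.R479.NF.HP

/-!
# The Hasse principle for almost all systems with overlapping products
-/

set_option autoImplicit false
set_option linter.unusedSectionVars false
set_option linter.unusedVariables false

namespace Pool.Agent.U637.OP

open NumberField Module TensorProduct Finset Filter Polynomial
open Pool.Agent.TH204.HP (primes_upto one_lt_p p_pos exists_pow_gt norm_eq_of_near)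
open Pool.Agent.Y714.RC (PP)
open Pool.Agent.R479.NF

variable (m : ℕ) [NeZero m] {L : Type} [Field L] [NumberField L] [IsCyclotomicExtension {m} ℚ L]
variable {r s e : ℕ}

/-- a point over the field `F` -/
def PtV (K : Fin r → IntermediateField ℚ L) (f : Fin s → ℤ[X]) (A : Fin e → Finset (Fin s)) (φ : Fin r → Fin e)
    (c : Fin r → ℤ) (k : Fin s → ℤ) (F : Type) [Field F] [Algebra ℚ F] : Prop :=
  ∃ t : F, (∀ j, PP f k j t ≠ 0) ∧ ∀ i, ∃ z : F ⊗[ℚ] (K i), Algebra.norm F z = (c i : F) * ∏ j ∈ A (φ i), PP f k j t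

/-- the local condition on the values -/
def SS (K : Fin r → IntermediateField ℚ L) (A : Fin e → Finset (Fin s)) (φ : Fin r → Fin e)
    (c : Fin r → ℤ) (p : Nat.Primes) (b : Fin s → ℚ_[(p : ℕ)]) : Prop :=
  ∀ i, IsNp (K i) (p : ℕ) ((c i : ℚ_[(p : ℕ)]) * ∏ j ∈ A (φ i), b j)

lemma SS_inv (K : Fin r → IntermediateField ℚ L) (A : Fin e → Finset (Fin s)) (φ : Fin r → Fin e)
    (c : Fin r → ℤ) (p : Nat.Primes) (b w : Fin s → ℚ_[(p : ℕ)]) (hb : SS K A φ c p b) (hw : ∀ j, w j ≠ 0) :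
    SS K A φ c p (fun j => b j * w j ^ (∏ i, finrank ℚ (K i))) := by
  intro i
  obtain ⟨q, hq⟩ : finrank ℚ (K i) ∣ ∏ i, finrank ℚ (K i) := dvd_prod_of_mem (fun i => finrank ℚ (K i)) (mem_univ i)
  have e : (c i : ℚ_[(p : ℕ)]) * ∏ j ∈ A (φ i), b j * w j ^ (∏ i, finrank ℚ (K i)) =
      ((c i : ℚ_[(p : ℕ)]) * ∏ j ∈ A (φ i), b j) * ((∏ j ∈ A (φ i), w j) ^ q) ^ finrank ℚ (K i) := by
    rw [prod_mul_distrib, ← mul_assoc, prod_pow, hq, mul_comm (finrank ℚ (K i)) q, pow_mul]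
  rw [e]
  exact (hb i).mul (isNp_pow _)

/-- the conditions at infinity of a real point -/
lemma RcE_of (K : Fin r → IntermediateField ℚ L) (hs : ∀ i, Sgn (K i)) (f : Fin s → ℤ[X]) (A : Fin e → Finset (Fin s))
    (φ : Fin r → Fin e) (c : Fin r → ℤ) (hc : ∀ i, c i ≠ 0) (k : Fin s → ℤ) (t : ℝ) (ht : ∀ j, PP f k j t ≠ 0)
    (h : ∀ i, ∃ z : ℝ ⊗[ℚ] (K i), Algebra.norm ℝ z = (c i : ℝ) * ∏ j ∈ A (φ i), PP f k j t) : RcE K f A φ c k t := by
  intro i
  rcases hs i with h4 | h4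
  · exact Or.inl h4
  · right
    obtain ⟨z, hz⟩ := h i
    have h5 := real_nonneg h4 z
    rw [hz] at h5
    exact lt_of_le_of_ne h5 (mul_ne_zero (by exact_mod_cast hc i) (prod_ne_zero_iff.2 fun j _ => ht j)).symm

lemma RcE_sign (K : Fin r → IntermediateField ℚ L) (f : Fin s → ℤ[X]) (A : Fin e → Finset (Fin s))
    (φ : Fin r → Fin e) (c : Fin r → ℤ) (k k' : Fin s → ℤ) (t t' : ℝ) (h : RcE K f A φ c k t)
    (hs : ∀ j, 0 < PP f k' j t' * PP f k j t) : RcE K f A φ c k' t' := by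
  intro i
  rcases h i with h1 | h1
  · exact Or.inl h1
  · right
    have h2 : 0 < (∏ j ∈ A (φ i), PP f k' j t') * ∏ j ∈ A (φ i), PP f k j t := by
      rw [← prod_mul_distrib]
      exact prod_pos fun j _ => hs j
    rw [mul_comm] at h2
    exact sign_trans _ _ _ h1 h2

lemma PtV_of_GlE (K : Fin r → IntermediateField ℚ L) (f : Fin s → ℤ[X]) (A : Fin e → Finset (Fin s)) (φ : Fin r → Fin e)
    (c : Fin r → ℤ) (T : Finset Nat.Primes) (N B X : ℕ) (k : Fin s → ℤ) (t : (p : Nat.Primes) → ℚ_[(p : ℕ)]) (tr : ℝ)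
    (h : GlE K f A φ c T N B X k t tr) : PtV K f A φ c k ℚ := by
  obtain ⟨q, -, -, h3, h4⟩ := h
  refine ⟨q, fun j h0 => ?_, fun i => ?_⟩
  · have h5 := h3 j
    have e : PP f k j (q : ℝ) = ((PP f k j q : ℚ) : ℝ) := by
      unfold PP
      have e2 : ((aeval q (f j) : ℚ) : ℝ) = aeval (q : ℝ) (f j) := by
        have := aeval_algebraMap_apply ℝ q (f j)
        simp only [eq_ratCast] at this
        exact this.symm
      push_cast
      rw [e2]
    rw [e, h0, Rat.cast_zero, zero_mul] at h5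
    exact lt_irrefl _ h5
  · obtain ⟨y, hy⟩ := h4 i
    exact ⟨(1 : ℚ) ⊗ₜ[ℚ] y, by rw [norm_one_tmul_rat, hy]⟩

/-- the bad primes -/
lemma exists_T (f : Fin s → ℤ[X]) (hf : ∀ j, 1 ≤ (f j).natDegree) (c : Fin r → ℤ) (hc : ∀ i, c i ≠ 0) (hm : m ≠ 0) :
    ∃ T : Finset Nat.Primes, ∀ p : Nat.Primes, ((p : ℕ) ≤ ∑ j, (f j).natDegree ∨ (p : ℕ) ∣ m ∨
      (∃ j, ((p : ℕ) : ℤ) ∣ (f j).leadingCoeff) ∨ ∃ i, ((p : ℕ) : ℤ) ∣ c i) → p ∈ T := by
  obtain ⟨T, hT⟩ := primes_upto (∑ j, (f j).natDegree + m + ∑ j, (f j).leadingCoeff.natAbs + ∑ i, (c i).natAbs)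
  refine ⟨T, fun p hp => hT p ?_⟩
  rcases hp with h | h | ⟨j, h⟩ | ⟨i, h⟩
  · omega
  · have := Nat.le_of_dvd (Nat.pos_of_ne_zero hm) h
    omega
  · have hl : (f j).leadingCoeff ≠ 0 := by
      rw [Ne, leadingCoeff_eq_zero]
      intro h
      have := hf j
      rw [h] at this
      simp at this
    have h1 := Nat.le_of_dvd (Int.natAbs_pos.2 hl) (Int.natCast_dvd.1 h)
    have h2 : (f j).leadingCoeff.natAbs ≤ ∑ j, (f j).leadingCoeff.natAbs :=
      single_le_sum (f := fun j => (f j).leadingCoeff.natAbs) (fun _ _ => Nat.zero_le _) (mem_univ j)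
    omega
  · have h1 := Nat.le_of_dvd (Int.natAbs_pos.2 (hc i)) (Int.natCast_dvd.1 h)
    have h2 : (c i).natAbs ≤ ∑ i, (c i).natAbs :=
      single_le_sum (f := fun i => (c i).natAbs) (fun _ _ => Nat.zero_le _) (mem_univ i)
    omega

include m in
open Classical in
/-- the Hasse principle for almost all systems -/
theorem hpV (K : Fin r → IntermediateField ℚ L) (hh : ∀ i, (classNumber (K i)).Coprime (finrank ℚ (K i)))
    (hs : ∀ i, Sgn (K i)) (f : Fin s → ℤ[X]) (hf : ∀ j, 1 ≤ (f j).natDegree) (A : Fin e → Finset (Fin s)) (φ : Fin r → Fin e)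
    (hLD : LDisj K A φ) (hA : ∀ y, (A y).Nonempty) (c : Fin r → ℤ) (hc : ∀ i, c i ≠ 0) (B : ℕ) (hB : 1 ≤ B) (η : ℝ) (hη : 0 < η) :
    ∃ X0 : ℕ, ∀ X : ℕ, X0 ≤ X →
      (#{k ∈ Pool.Agent.R479.NF.box f B X | PtV K f A φ c k ℝ ∧ (∀ p : Nat.Primes, PtV K f A φ c k ℚ_[(p : ℕ)]) ∧
        ¬ PtV K f A φ c k ℚ} : ℝ) ≤ η * ∏ j, (X : ℝ) ^ (f j).natDegree := by
  choose β hβ using hA
  obtain ⟨T, hT⟩ := exists_T m f hf c hc (NeZero.ne m)
  obtain ⟨n, hn⟩ : ∃ n, n = ∏ i, finrank ℚ (K i) := ⟨_, rfl⟩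
  have hn0 : n ≠ 0 := by
    rw [hn]
    exact prod_ne_zero_iff.2 fun i _ => (finrank_pos (R := ℚ) (M := K i)).ne'
  have hSn : ∀ p : Nat.Primes, ∀ b w : Fin s → ℚ_[(p : ℕ)], SS K A φ c p b → (∀ j, w j ≠ 0) → SS K A φ c p (fun j => b j * w j ^ n) := by
    intro p b w hb hw
    rw [hn]
    exact SS_inv K A φ c p b w hb hw
  obtain ⟨η', hη'⟩ : ∃ η', η' = η / (3 * (#T + 1)) := ⟨_, rfl⟩
  have hη'0 : 0 < η' := by rw [hη']; positivity
  have hdens := fun p : Nat.Primes => densV (p := (p : ℕ)) n hn0 (SS K A φ c p) (hSn p) f hf B hB η' hη'0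
  choose N0 X1 hdens using hdens
  obtain ⟨N, hN⟩ : ∃ N, N = ∑ p ∈ T, N0 p := ⟨_, rfl⟩
  obtain ⟨B', X2, hB', hreal⟩ := densR f hf B hB (η / 3) (by positivity)
  obtain ⟨B3, hB3⟩ : ∃ B3, B3 = max B B' := ⟨_, rfl⟩
  have hB3a : B ≤ B3 := by rw [hB3]; exact le_max_left _ _
  have hB3b : B' ≤ B3 := by rw [hB3]; exact le_max_right _ _
  obtain ⟨X3, hX3⟩ := wxE m K hh hs f hf A φ hLD β hβ c hc T hT N B3 (hB.trans hB3a) (η / 3) (by positivity)
  refine ⟨max (max (∑ p ∈ T, X1 p) X2) X3, fun X hX => ?_⟩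
  obtain ⟨Bad, hB1, hB2⟩ := hX3 X ((le_max_right _ _).trans hX)
  have hreal := hreal X ((le_trans (le_max_right _ _) (le_max_left _ _)).trans hX)
  have hXa : ∀ p ∈ T, X1 p ≤ X := fun p hp =>
    (single_le_sum (f := X1) (fun _ _ => Nat.zero_le _) hp).trans ((le_trans (le_max_left _ _) (le_max_left _ _)).trans hX)
  obtain ⟨BR, hBR⟩ : ∃ BR, BR = (Pool.Agent.R479.NF.box f B X).filter (fun k => ∃ t : ℝ, (∀ j, PP f k j t ≠ 0) ∧
        ¬ ∃ t' : ℝ, |t'| ≤ B' * X ∧ (∀ j, (X : ℝ) ^ (f j).natDegree ≤ B' * |PP f k j t'|) ∧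
          ∀ j, 0 < PP f k j t' * PP f k j t) := ⟨_, rfl⟩
  obtain ⟨BP, hBP⟩ : ∃ BP : Nat.Primes → Finset (Fin s → ℤ), BP = fun p => (Pool.Agent.R479.NF.box f B X).filter
    (fun k => ElsV f (SS K A φ c p) k ∧ ¬ LocV f (SS K A φ c p) (N0 p) k) := ⟨_, rfl⟩
  have hsub : {k ∈ Pool.Agent.R479.NF.box f B X | PtV K f A φ c k ℝ ∧ (∀ p : Nat.Primes, PtV K f A φ c k ℚ_[(p : ℕ)]) ∧
        ¬ PtV K f A φ c k ℚ} ⊆ (Bad ∪ BR) ∪ T.biUnion BP := by
    intro k hk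
    rw [mem_filter] at hk
    obtain ⟨hkX, ⟨t0, ht0, ht0'⟩, h3, h4⟩ := hk
    by_contra hcon
    rw [mem_union, not_or, mem_union, not_or] at hcon
    obtain ⟨⟨hc1, hc2⟩, hc3⟩ := hcon
    apply h4
    -- the real point
    obtain ⟨tr, htr1, htr2, htr3⟩ : ∃ t' : ℝ, |t'| ≤ B' * X ∧ (∀ j, (X : ℝ) ^ (f j).natDegree ≤ B' * |PP f k j t'|) ∧
          ∀ j, 0 < PP f k j t' * PP f k j t0 := by
      by_contra h5
      apply hc2
      rw [hBR]
      exact mem_filter.2 ⟨hkX, t0, ht0, h5⟩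
    have hRc := RcE_sign K f A φ c k k t0 tr (RcE_of K hs f A φ c hc k t0 ht0 ht0') htr3
    -- the p-adic points
    have hloc : ∀ p : Nat.Primes, ∃ t : ℚ_[(p : ℕ)], p ∈ T → ‖t‖ ≤ ((p : ℕ) : ℝ) ^ N ∧
        (∀ j, (((p : ℕ) : ℝ) ^ N)⁻¹ ≤ ‖PP f k j t‖) ∧ SS K A φ c p (fun j => PP f k j t) := by
      intro p
      by_cases hp : p ∈ T
      · have h5 : LocV f (SS K A φ c p) (N0 p) k := by
          by_contra h6
          apply hc3
          rw [mem_biUnion]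
          refine ⟨p, hp, ?_⟩
          rw [hBP]
          refine mem_filter.2 ⟨hkX, ?_, h6⟩
          obtain ⟨t, ht1, ht2⟩ := h3 p
          exact ⟨t, ht1, ht2⟩
        have h7 : N0 p ≤ N := by
          rw [hN]
          exact single_le_sum (f := N0) (fun _ _ => Nat.zero_le _) hp
        obtain ⟨t, ht⟩ := h5.mono h7
        exact ⟨t, fun _ => ht⟩
      · exact ⟨0, fun h => absurd h hp⟩
    choose t ht using hloc
    refine PtV_of_GlE K f A φ c T N B3 X k t tr (hB2 k (fun j => ?_) hc1 t tr (fun p hp => ?_) hRc ?_ fun j => ?_)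
    · have h5 := abs_le.2 (mem_Icc.1 (Fintype.mem_piFinset.1 hkX j))
      refine h5.trans ?_
      have h6 : B * X ^ (f j).natDegree ≤ B3 * X ^ (f j).natDegree := Nat.mul_le_mul_right _ hB3a
      exact_mod_cast h6
    · exact ht p hp
    · refine htr1.trans ?_
      have : (B' : ℝ) ≤ B3 := by exact_mod_cast hB3b
      exact mul_le_mul_of_nonneg_right this (Nat.cast_nonneg _)
    · refine (htr2 j).trans ?_
      have : (B' : ℝ) ≤ B3 := by exact_mod_cast hB3b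
      exact mul_le_mul_of_nonneg_right this (abs_nonneg _)
  have h1 := (card_le_card hsub).trans ((card_union_le _ _).trans (Nat.add_le_add (card_union_le _ _) card_biUnion_le))
  have h2 : (#{k ∈ Pool.Agent.R479.NF.box f B X | PtV K f A φ c k ℝ ∧ (∀ p : Nat.Primes, PtV K f A φ c k ℚ_[(p : ℕ)]) ∧
        ¬ PtV K f A φ c k ℚ} : ℝ) ≤ ((#Bad : ℝ) + #BR) + ∑ p ∈ T, (#(BP p) : ℝ) := by
    exact_mod_cast h1
  refine h2.trans ?_
  obtain ⟨Pr, hPr⟩ : ∃ Pr : ℝ, Pr = ∏ j, (X : ℝ) ^ (f j).natDegree := ⟨_, rfl⟩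
  have hPr0 : 0 ≤ Pr := by rw [hPr]; exact prod_nonneg fun j _ => by positivity
  rw [← hPr] at hB1 hreal ⊢
  have h3 : ∑ p ∈ T, (#(BP p) : ℝ) ≤ #T * (η' * Pr) := by
    rw [← nsmul_eq_mul, ← sum_const]
    refine sum_le_sum fun p hp => ?_
    have := hdens p X (hXa p hp)
    rw [← hPr] at this
    rw [hBP]
    exact this
  have h4 : (#T : ℝ) * (η' * Pr) ≤ η / 3 * Pr := by
    have e : (#T : ℝ) * (η' * Pr) = (η / 3 * Pr) * (#T / (#T + 1)) := by
      rw [hη']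
      field_simp
    rw [e]
    apply mul_le_of_le_one_right (by positivity)
    rw [div_le_one (by positivity)]
    linarith
  have h5 : (#BR : ℝ) ≤ η / 3 * Pr := by
    rw [hBR]
    exact hreal
  linarith

end Pool.Agent.U637.OP
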