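import Pool.Agent.U637.OP.P5

/-!
# A positive proportion of the systems has rational points
-/

set_option autoImplicit false
set_option linter.unusedSectionVars false
set_option linter.unusedVariables false

namespace Pool.Agent.U637.OP

open NumberField Module TensorProduct Finset Filter Polynomial
open Pool.Agent.TH204.HP (primes_upto one_lt_p p_pos exists_pow_gt norm_eq_of_near)
open Pool.Agent.Y714.RC (PP)
open Pool.Agent.R479.NF

/-- integers of given sign in a class and in an interval -/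
lemma count_prog (M : ℕ) (hM : 0 < M) (ρ : ℤ) (σ : ℤ) (hσ : σ = 1 ∨ σ = -1) (H : ℕ) (hH : 8 * M ≤ H) :
    ∃ S : Finset ℤ, (H : ℝ) / (4 * M) ≤ #S ∧ ∀ x ∈ S, (M : ℤ) ∣ x - ρ ∧ (H : ℤ) ≤ 2 * (σ * x) ∧ σ * x ≤ H := by
  have hMz : (0 : ℤ) < M := by exact_mod_cast hM
  have hMr : (0 : ℝ) < M := by exact_mod_cast hM
  obtain ⟨h2, hh2⟩ : ∃ h2 : ℤ, h2 = (H : ℤ) - (H : ℤ) / 2 := ⟨_, rfl⟩
  obtain ⟨y0, hy0⟩ : ∃ y0 : ℤ, y0 = h2 + (σ * ρ - h2) % M := ⟨_, rfl⟩
  have h1 := Int.emod_nonneg (σ * ρ - h2) hMz.ne'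
  have h2' := Int.emod_lt_of_pos (σ * ρ - h2) hMz
  have hHz : 8 * (M : ℤ) ≤ H := by exact_mod_cast hH
  have hy1 : (H : ℤ) ≤ 2 * y0 := by omega
  have hy2 : 2 * y0 ≤ H + 1 + 2 * M := by omega
  obtain ⟨G, hG⟩ : ∃ G : ℕ, G = ((H : ℤ) - y0).toNat / M := ⟨_, rfl⟩
  have hnn : 0 ≤ (H : ℤ) - y0 := by omega
  have hGM : (M : ℤ) * G ≤ H - y0 := by
    have h3 : M * G ≤ ((H : ℤ) - y0).toNat := by
      rw [hG]
      exact Nat.mul_div_le _ _
    have h4 : ((((H : ℤ) - y0).toNat : ℕ) : ℤ) = H - y0 := Int.toNat_of_nonneg hnn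
    rw [← h4]
    exact_mod_cast h3
  have hGM2 : (H : ℤ) - y0 < M * (G + 1) := by
    have h3 : ((H : ℤ) - y0).toNat < M * (G + 1) := by
      rw [hG]
      exact Nat.lt_mul_div_succ _ hM
    have h4 : ((((H : ℤ) - y0).toNat : ℕ) : ℤ) = H - y0 := Int.toNat_of_nonneg hnn
    rw [← h4]
    exact_mod_cast h3
  have hσσ : σ * σ = 1 := by rcases hσ with h | h <;> rw [h] <;> norm_num
  refine ⟨(range G).image (fun u : ℕ => σ * (y0 + M * u)), ?_, fun x hx => ?_⟩
  · rw [card_image_of_injective, card_range]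
    · rw [div_le_iff₀ (by positivity)]
      have h3 : (H : ℤ) ≤ G * (4 * M) := by nlinarith
      exact_mod_cast h3
    · intro u u' h
      simp only at h
      have h3 : y0 + M * (u : ℤ) = y0 + M * (u' : ℤ) := by
        have h4 := congrArg (fun z => σ * z) h
        simp only [← mul_assoc, hσσ, one_mul] at h4
        exact h4
      have h5 : (M : ℤ) * (u : ℤ) = M * (u' : ℤ) := by linarith
      have h6 := mul_left_cancel₀ hMz.ne' h5
      exact_mod_cast h6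
  · rw [mem_image] at hx
    obtain ⟨u, hu, rfl⟩ := hx
    rw [mem_range] at hu
    have e : σ * (σ * (y0 + M * u)) = y0 + M * u := by rw [← mul_assoc, hσσ, one_mul]
    rw [e]
    have hu' : (M : ℤ) * u ≤ M * G := mul_le_mul_of_nonneg_left (by exact_mod_cast hu.le) hMz.le
    have hu0 : 0 ≤ (M : ℤ) * u := by positivity
    refine ⟨?_, by omega, by omega⟩
    have h3 : (M : ℤ) ∣ (σ * ρ - h2) - (σ * ρ - h2) % M := Int.dvd_self_sub_emod
    obtain ⟨v, hv⟩ := h3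
    refine ⟨σ * (u - v), ?_⟩
    have h4 : y0 = σ * ρ - M * v := by rw [hy0]; linarith
    rw [h4]
    have e2 : σ * (σ * ρ - M * v + M * u) - ρ = (σ * σ) * ρ - ρ + M * (σ * (u - v)) := by ring
    rw [e2, hσσ]
    ring

variable (m : ℕ) [NeZero m] {L : Type} [Field L] [NumberField L] [IsCyclotomicExtension {m} ℚ L]
variable {r s e : ℕ}

lemma norm_int_of_dvd {p : ℕ} [Fact p.Prime] (E : ℕ) (z : ℤ) (h : ((p ^ E : ℕ) : ℤ) ∣ z) : ‖(z : ℚ_[p])‖ ≤ ((p : ℝ) ^ E)⁻¹ := by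
  have h1 := (Padic.norm_int_le_pow_iff_dvd (p := p) z E).2 (by exact_mod_cast h)
  rwa [zpow_neg, zpow_natCast] at h1

include m in
open Classical in
/-- a positive proportion of the systems has rational points, if one of them has points everywhere locally -/
theorem posV (K : Fin r → IntermediateField ℚ L) (hh : ∀ i, (classNumber (K i)).Coprime (finrank ℚ (K i)))
    (hs : ∀ i, Sgn (K i)) (f : Fin s → ℤ[X]) (hf : ∀ j, 1 ≤ (f j).natDegree) (A : Fin e → Finset (Fin s)) (φ : Fin r → Fin e)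
    (hLD : LDisj K A φ) (hA : ∀ y, (A y).Nonempty) (c : Fin r → ℤ) (hc : ∀ i, c i ≠ 0) (k0 : Fin s → ℤ)
    (hk0 : PtV K f A φ c k0 ℝ) (hk0p : ∀ p : Nat.Primes, PtV K f A φ c k0 ℚ_[(p : ℕ)]) :
    ∃ γ : ℝ, 0 < γ ∧ ∃ X0 : ℕ, ∀ X : ℕ, X0 ≤ X → ∀ B : ℕ, 1 ≤ B →
      γ * ∏ j, (X : ℝ) ^ (f j).natDegree ≤ #{k ∈ Pool.Agent.R479.NF.box f B X | PtV K f A φ c k ℚ} := by
  choose β hβ using hA
  obtain ⟨T, hT⟩ := exists_T m f hf c hc (NeZero.ne m)
  obtain ⟨n, hn⟩ : ∃ n, n = ∏ i, finrank ℚ (K i) := ⟨_, rfl⟩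
  have hn0 : n ≠ 0 := by
    rw [hn]
    exact prod_ne_zero_iff.2 fun i _ => (finrank_pos (R := ℚ) (M := K i)).ne'
  obtain ⟨tr, htr, htr'⟩ := hk0
  choose tp htp htp' using hk0p
  -- the level of the p-adic points
  have hlev : ∀ p : Nat.Primes, ∃ N0 : ℕ, ‖tp p‖ ≤ ((p : ℕ) : ℝ) ^ N0 ∧ ∀ j, (((p : ℕ) : ℝ) ^ N0)⁻¹ ≤ ‖PP f k0 j (tp p)‖ := by
    intro p
    have hp1 : (1 : ℝ) < ((p : ℕ) : ℝ) := one_lt_p (p := (p : ℕ))
    obtain ⟨a, ha⟩ := exists_pow_gt (p := (p : ℕ)) ‖tp p‖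
    have hb : ∀ j, ∃ b : ℕ, ‖PP f k0 j (tp p)‖⁻¹ < ((p : ℕ) : ℝ) ^ b := fun j => exists_pow_gt (p := (p : ℕ)) _
    choose b hb using hb
    refine ⟨a + ∑ j, b j, ha.le.trans (pow_le_pow_right₀ hp1.le (by omega)), fun j => ?_⟩
    have h0 : 0 < ‖PP f k0 j (tp p)‖ := norm_pos_iff.2 (htp p j)
    have h1 : b j ≤ ∑ j, b j := single_le_sum (f := b) (fun _ _ => Nat.zero_le _) (mem_univ j)
    have h2 : ((p : ℕ) : ℝ) ^ (b j) ≤ ((p : ℕ) : ℝ) ^ (a + ∑ j, b j) := pow_le_pow_right₀ hp1.le (by omega)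
    rw [inv_le_comm₀ (by positivity) h0]
    exact (hb j).le.trans h2
  choose N0 hN0a hN0b using hlev
  obtain ⟨N, hN⟩ : ∃ N, N = ∑ p ∈ T, N0 p := ⟨_, rfl⟩
  have hNp : ∀ p ∈ T, N0 p ≤ N := fun p hp => by
    rw [hN]
    exact single_le_sum (f := N0) (fun _ _ => Nat.zero_le _) hp
  -- the modulus
  have hE : ∀ p : Nat.Primes, ∃ E : ℕ, (((p : ℕ) : ℝ) ^ E)⁻¹ < ‖((n : ℕ) : ℚ_[(p : ℕ)])‖ ^ 2 * (((p : ℕ) : ℝ) ^ N0 p)⁻¹ := by
    intro p
    have hp1 : (1 : ℝ) < ((p : ℕ) : ℝ) := one_lt_p (p := (p : ℕ))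
    have hnn : 0 < ‖((n : ℕ) : ℚ_[(p : ℕ)])‖ := norm_pos_iff.2 (by exact_mod_cast hn0)
    obtain ⟨E, hE⟩ := exists_pow_gt (p := (p : ℕ)) (‖((n : ℕ) : ℚ_[(p : ℕ)])‖ ^ 2 * (((p : ℕ) : ℝ) ^ N0 p)⁻¹)⁻¹
    refine ⟨E, ?_⟩
    rw [inv_lt_comm₀ (by positivity) (by positivity)]
    exact hE
  choose E hE using hE
  obtain ⟨M, hM⟩ : ∃ M, M = ∏ p ∈ T, (p : ℕ) ^ E p := ⟨_, rfl⟩
  have hM0 : 0 < M := by rw [hM]; exact prod_pos fun p _ => pow_pos p.2.pos _
  have hMr : (0 : ℝ) < M := by exact_mod_cast hM0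
  -- the signs
  have hσ : ∀ j, ∃ σ : ℤ, (σ = 1 ∨ σ = -1) ∧ 0 < (σ : ℝ) * PP f k0 j tr := by
    intro j
    rcases lt_or_gt_of_ne (htr j) with h | h
    · exact ⟨-1, Or.inr rfl, by push_cast; linarith⟩
    · exact ⟨1, Or.inl rfl, by push_cast; linarith⟩
  choose σ hσ1 hσ2 using hσ
  obtain ⟨ε, hε⟩ : ∃ ε : ℝ, ε = (1 / (4 * M)) ^ s / 2 := ⟨_, rfl⟩
  have hε0 : 0 < ε := by rw [hε]; positivity
  obtain ⟨X3, hX3⟩ := wxE m K hh hs f hf A φ hLD β hβ c hc T hT N 4 (by norm_num) ε hε0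
  refine ⟨ε, hε0, max (max X3 (8 * M)) (∑ j, 4 * (aeval (0 : ℤ) (f j)).natAbs), fun X hX B hB => ?_⟩
  obtain ⟨Bad, hB1, hB2⟩ := hX3 X ((le_trans (le_max_left _ _) (le_max_left _ _)).trans hX)
  have hX8 : 8 * M ≤ X := (le_trans (le_max_right _ _) (le_max_left _ _)).trans hX
  have hXf : ∀ j, 4 * (aeval (0 : ℤ) (f j)).natAbs ≤ X := fun j =>
    (single_le_sum (f := fun j => 4 * (aeval (0 : ℤ) (f j)).natAbs) (fun _ _ => Nat.zero_le _) (mem_univ j)).trans
      ((le_max_right _ _).trans hX)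
  have hX1 : 1 ≤ X := by omega
  have hXd : ∀ j, X ≤ X ^ (f j).natDegree := fun j => Nat.le_self_pow (by have := hf j; omega) _
  have hcp := fun j => count_prog M hM0 (k0 j) (σ j) (hσ1 j) (X ^ (f j).natDegree) (hX8.trans (hXd j))
  choose S hS1 hS2 using hcp
  obtain ⟨Gd, hGd⟩ : ∃ Gd : Finset (Fin s → ℤ), Gd = Fintype.piFinset S := ⟨_, rfl⟩
  have hcard : (1 / (4 * (M : ℝ))) ^ s * ∏ j, (X : ℝ) ^ (f j).natDegree ≤ #Gd := by
    rw [hGd, Fintype.card_piFinset]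
    push_cast
    have e : (1 / (4 * (M : ℝ))) ^ s = ∏ _j : Fin s, (1 / (4 * (M : ℝ))) := by rw [prod_const, card_univ, Fintype.card_fin]
    rw [e, ← prod_mul_distrib]
    apply Finset.prod_le_prod (fun j _ => by positivity)
    intro j _
    have h1 := hS1 j
    push_cast at h1
    calc 1 / (4 * (M : ℝ)) * (X : ℝ) ^ (f j).natDegree = (X : ℝ) ^ (f j).natDegree / (4 * M) := by ring
      _ ≤ _ := h1
  have hsub : Gd \ Bad ⊆ {k ∈ Pool.Agent.R479.NF.box f B X | PtV K f A φ c k ℚ} := by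
    intro k hk
    rw [Finset.mem_sdiff, hGd, Fintype.mem_piFinset] at hk
    obtain ⟨hk1, hk2⟩ := hk
    have hkS := fun j => hS2 j (k j) (hk1 j)
    have hkabs : ∀ j, |k j| = σ j * k j := by
      intro j
      obtain ⟨-, h1, -⟩ := hkS j
      have h0 : 0 ≤ σ j * k j := by
        have : (0 : ℤ) ≤ ((X ^ (f j).natDegree : ℕ) : ℤ) := Int.natCast_nonneg _
        omega
      rcases hσ1 j with h | h
      · rw [h, one_mul] at h0 ⊢
        exact abs_of_nonneg h0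
      · rw [h] at h0 ⊢
        rw [abs_of_nonpos (by linarith)]
        ring
    rw [mem_filter]
    constructor
    · unfold Pool.Agent.R479.NF.box
      rw [Fintype.mem_piFinset]
      intro j
      rw [mem_Icc, ← abs_le, hkabs j]
      refine (hkS j).2.2.trans ?_
      have : X ^ (f j).natDegree ≤ B * X ^ (f j).natDegree := Nat.le_mul_of_pos_left _ hB
      exact_mod_cast this
    · -- the values at the real point 0
      have hval : ∀ j, (X : ℝ) ^ (f j).natDegree / 4 ≤ (σ j : ℝ) * PP f k j (0 : ℝ) := by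
        intro j
        have h1 := (hkS j).2.1
        have h2 : ((X : ℝ)) ^ (f j).natDegree ≤ 2 * ((σ j : ℝ) * k j) := by exact_mod_cast h1
        have h3 : (aeval (0 : ℝ) (f j) : ℝ) = ((aeval (0 : ℤ) (f j) : ℤ) : ℝ) := by
          have := aeval_algebraMap_apply ℝ (0 : ℤ) (f j)
          simp only [eq_intCast, Int.cast_zero] at this
          exact this
        have h4 : |((aeval (0 : ℤ) (f j) : ℤ) : ℝ)| ≤ (X : ℝ) ^ (f j).natDegree / 4 := by
          have h5 : 4 * (aeval (0 : ℤ) (f j)).natAbs ≤ X ^ (f j).natDegree := (hXf j).trans (hXd j)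
          have h6 : (4 : ℝ) * (((aeval (0 : ℤ) (f j)).natAbs : ℕ) : ℝ) ≤ (X : ℝ) ^ (f j).natDegree := by exact_mod_cast h5
          have h7 : (((aeval (0 : ℤ) (f j)).natAbs : ℕ) : ℝ) = |((aeval (0 : ℤ) (f j) : ℤ) : ℝ)| := by
            rw [Nat.cast_natAbs, Int.cast_abs]
          rw [h7] at h6
          linarith
        have e : (σ j : ℝ) * PP f k j (0 : ℝ) = (σ j : ℝ) * k j + (σ j : ℝ) * ((aeval (0 : ℤ) (f j) : ℤ) : ℝ) := by
          unfold PP
          rw [h3]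
          ring
        have h5 : |(σ j : ℝ) * ((aeval (0 : ℤ) (f j) : ℤ) : ℝ)| ≤ (X : ℝ) ^ (f j).natDegree / 4 := by
          rw [abs_mul]
          rcases hσ1 j with h | h <;> rw [h] <;> simpa using h4
        rw [e]
        linarith [(abs_le.1 h5).1]
      have hX0' : (0 : ℝ) < X := by exact_mod_cast hX1
      have hsg : ∀ j, 0 < PP f k j (0 : ℝ) * PP f k0 j tr := by
        intro j
        have h1 : 0 < (σ j : ℝ) * PP f k j (0 : ℝ) := lt_of_lt_of_le (by positivity) (hval j)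
        rw [mul_comm] at h1
        exact sign_trans _ _ _ h1 (hσ2 j)
      have hRc := RcE_sign K f A φ c k0 k tr 0 (RcE_of K hs f A φ c hc k0 tr htr htr') hsg
      refine PtV_of_GlE K f A φ c T N 4 X k tp 0 (hB2 k (fun j => ?_) hk2 tp 0 (fun p hp => ?_) hRc ?_ fun j => ?_)
      · rw [hkabs j]
        refine (hkS j).2.2.trans ?_
        have : X ^ (f j).natDegree ≤ 4 * X ^ (f j).natDegree := Nat.le_mul_of_pos_left _ (by norm_num)
        exact_mod_cast this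
      · have hp1 : (1 : ℝ) < ((p : ℕ) : ℝ) := one_lt_p (p := (p : ℕ))
        have hnn : ‖((n : ℕ) : ℚ_[(p : ℕ)])‖ ^ 2 ≤ 1 := by
          apply pow_le_one₀ (norm_nonneg _)
          have := Padic.norm_int_le_one (p := (p : ℕ)) (n : ℤ)
          simpa using this
        have hnear : ∀ j, ‖PP f k j (tp p) - PP f k0 j (tp p)‖ < ‖((n : ℕ) : ℚ_[(p : ℕ)])‖ ^ 2 * ‖PP f k0 j (tp p)‖ := by
          intro j
          have e : PP f k j (tp p) - PP f k0 j (tp p) = ((k j - k0 j : ℤ) : ℚ_[(p : ℕ)]) := by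
            unfold PP
            push_cast
            ring
          rw [e]
          have h1 : (((p : ℕ) ^ E p : ℕ) : ℤ) ∣ k j - k0 j := by
            refine dvd_trans ?_ (hkS j).1
            rw [hM]
            exact_mod_cast dvd_prod_of_mem (fun p : Nat.Primes => (p : ℕ) ^ E p) hp
          refine (norm_int_of_dvd (E p) _ h1).trans_lt ((hE p).trans_le ?_)
          exact mul_le_mul_of_nonneg_left (hN0b p j) (by positivity)
        have hroot := fun j => Pool.Agent.R479.NF.root_near n _ _ (htp p j) (hnear j)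
        choose w hw using hroot
        have hnorm : ∀ j, ‖PP f k j (tp p)‖ = ‖PP f k0 j (tp p)‖ := fun j =>
          norm_eq_of_near _ _ ((hnear j).trans_le (mul_le_of_le_one_left (norm_nonneg _) hnn))
        have hpw : ((p : ℕ) : ℝ) ^ N0 p ≤ ((p : ℕ) : ℝ) ^ N := pow_le_pow_right₀ hp1.le (hNp p hp)
        refine ⟨(hN0a p).trans hpw, fun j => ?_, ?_⟩
        · rw [hnorm j]
          exact (inv_anti₀ (by positivity) hpw).trans (hN0b p j)
        · have hw0 : ∀ j, w j ≠ 0 := by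
            intro j h0
            have h1 := hw j
            rw [h0, zero_pow hn0, mul_zero] at h1
            have h2 := hnorm j
            rw [h1, norm_zero] at h2
            exact htp p j (norm_eq_zero.1 h2.symm)
          have h1 : SS K A φ c p (fun j => PP f k0 j (tp p)) := htp' p
          have h2 := SS_inv K A φ c p _ w h1 hw0
          rw [← hn] at h2
          intro i
          have h3 := h2 i
          have e : (fun j => PP f k0 j (tp p) * w j ^ n) = fun j => PP f k j (tp p) := funext fun j => (hw j).symm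
          simp only at h3
          have e2 : ∏ j ∈ A (φ i), PP f k0 j (tp p) * w j ^ n = ∏ j ∈ A (φ i), PP f k j (tp p) :=
            prod_congr rfl fun j _ => (hw j).symm
          rw [e2] at h3
          exact h3
      · rw [abs_zero]
        positivity
      · have h1 : |(σ j : ℝ) * PP f k j (0 : ℝ)| = |PP f k j (0 : ℝ)| := by
          rw [abs_mul]
          rcases hσ1 j with h | h <;> rw [h] <;> simp
        have h2 := le_abs_self ((σ j : ℝ) * PP f k j (0 : ℝ))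
        rw [h1] at h2
        push_cast
        linarith [hval j]
  have h1 : (#Gd : ℝ) - #Bad ≤ #(Gd \ Bad) := by
    have h2 := card_le_card_sdiff_add_card (s := Gd) (t := Bad)
    have h3 : (#Gd : ℝ) ≤ #(Gd \ Bad) + #Bad := by exact_mod_cast h2
    linarith
  have h2 : (#(Gd \ Bad) : ℝ) ≤ #{k ∈ Pool.Agent.R479.NF.box f B X | PtV K f A φ c k ℚ} := by exact_mod_cast card_le_card hsub
  have h3 : (1 / (4 * (M : ℝ))) ^ s = 2 * ε := by rw [hε]; ring
  rw [h3] at hcard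
  linarith

end Pool.Agent.U637.OP
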